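import Pool.Agent.Q45.RG.Emb

/-!
# The rank: decomposition into sign components
-/

set_option autoImplicit false
set_option maxHeartbeats 1000000

open Polynomial Pool.Agent.TH943.HJ

namespace Q45.RG

section

variable {K : Type} [Field K] {F : K[X]}

/-- the divisor of a point -/
theorem semi_pt {a b : K} (h : b ^ 2 = F.eval a) : Semi F (X - C a) (C b) :=
  ⟨monic_X_sub_C a, by rw [dvd_iff_isRoot, IsRoot, eval_sub, eval_pow, eval_C, h, sub_self]⟩

variable [IsDedekindDomain (CR F)] (h2 : (2 : K) ≠ 0) (hodd : Odd F.natDegree)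
  (hirr : Irreducible F) {r : ℕ} {σ : Fin r → K →+* K} (hF : ∀ i, F.map (σ i) = F)
  (hcomm : ∀ i j z, σ i (σ j z) = σ j (σ i z)) (hinv : ∀ i z, σ i (σ i z) = z)
  {x y : Fin r → K} (hpt : ∀ i, y i ^ 2 = F.eval (x i)) (hx : ∀ i j, σ i (x j) = x j)
  (hy : ∀ i j, σ i (y j) = if j = i then -y j else y j)

/-- the class of a point -/
noncomputable def ptc (hpt : ∀ i, y i ^ 2 = F.eval (x i)) (i : Fin r) :
    Additive (ClassGroup (CR F)) := Additive.ofMul (cM (semi_pt (hpt i)))

/-- the action on the classes -/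
noncomputable def act (hF : ∀ i, F.map (σ i) = F) (i : Fin r) :
    Additive (ClassGroup (CR F)) →+ Additive (ClassGroup (CR F)) :=
  MonoidHom.toAdditive (clMap (σ i) (hF i))

include hcomm h2 hodd hirr in
theorem act_comm (i j : Fin r) (a : Additive (ClassGroup (CR F))) :
    act hF i (act hF j a) = act hF j (act hF i a) := by
  show Additive.ofMul (clMap (σ i) (hF i) (clMap (σ j) (hF j) a.toMul)) =
    Additive.ofMul (clMap (σ j) (hF j) (clMap (σ i) (hF i) a.toMul))
  obtain ⟨U, V, hr, e⟩ := exists_red h2 hodd hirr.squarefree a.toMul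
  rw [e, clMap_cM, clMap_cM, clMap_cM, clMap_cM]
  congr 1
  have hp : ∀ p : K[X], (p.map (σ j)).map (σ i) = (p.map (σ i)).map (σ j) := by
    intro p
    ext n
    rw [coeff_map, coeff_map, coeff_map, coeff_map, hcomm]
  exact cM_congr _ _ (hp U) (hp V)

include hinv h2 hodd hirr in
theorem act_inv (i : Fin r) (a : Additive (ClassGroup (CR F))) :
    act hF i (act hF i a) = a := by
  show Additive.ofMul (clMap (σ i) (hF i) (clMap (σ i) (hF i) a.toMul)) = a
  obtain ⟨U, V, hr, e⟩ := exists_red h2 hodd hirr.squarefree a.toMul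
  have ea : a = Additive.ofMul (cM hr.toSemi) := by rw [← e]; rfl
  rw [e, clMap_cM, clMap_cM, ea]
  congr 1
  have hp : ∀ p : K[X], (p.map (σ i)).map (σ i) = p := by
    intro p
    ext n
    rw [coeff_map, coeff_map, hinv]
  exact cM_congr _ _ (hp U) (hp V)

include hx hy h2 hirr in
theorem act_pt (j i : Fin r) : act hF j (ptc hpt i) = if i = j then -ptc hpt i else ptc hpt i := by
  show Additive.ofMul (clMap (σ j) (hF j) (cM (semi_pt (hpt i)))) = _
  rw [clMap_cM]
  split_ifs with h
  · have h1 : -ptc hpt i = Additive.ofMul (cM (semi_pt (hpt i)).neg) := by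
      rw [cM_inv h2 hirr.squarefree (semi_pt (hpt i))]
      rfl
    rw [h1]
    congr 1
    refine cM_congr _ _ ?_ ?_
    · rw [Polynomial.map_sub, map_X, map_C, hx]
    · rw [map_C, hy, if_pos h, C_neg]
  · show _ = Additive.ofMul (cM (semi_pt (hpt i)))
    congr 1
    refine cM_congr _ _ ?_ ?_
    · rw [Polynomial.map_sub, map_X, map_C, hx]
    · rw [map_C, hy, if_neg h]

variable (hA0 : ∀ (U V : K[X]) (hr : Red F U V), (∀ i, U.map (σ i) = U) → (∀ i, V.map (σ i) = V) →
    cM hr.toSemi = 1)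
  (hA1 : ∀ (j : Fin r) (U V : K[X]) (hr : Red F U V), (∀ i, U.map (σ i) = U) →
    (∀ i, i ≠ j → V.map (σ i) = V) → V.map (σ j) = -V →
    ∃ n : ℤ, Additive.ofMul (cM hr.toSemi) = n • ptc hpt j)
  (hA2 : ∀ (i j : Fin r) (U V : K[X]), i ≠ j → Red F U V → U.map (σ i) = U →
    V.map (σ i) = -V → V.map (σ j) = -V → U = 1 ∧ V = 0)
  (hA3 : ∀ (j : Fin r) (n : ℤ), n ≠ 0 → n • ptc hpt j ≠ 0)

include h2 hodd hirr hA0 hA1 hA2 in
theorem eig_span (b : Additive (ClassGroup (CR F))) (hb : ∀ i, act hF i b = b ∨ act hF i b = -b) :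
    b ∈ Submodule.span ℤ (Set.range (ptc hpt)) := by
  classical
  obtain ⟨U, V, hr, e⟩ := exists_red h2 hodd hirr.squarefree b.toMul
  have eb : b = Additive.ofMul (cM hr.toSemi) := by rw [← e]; rfl
  have hUV : ∀ i, U.map (σ i) = U ∧ (V.map (σ i) = V ∨ V.map (σ i) = -V) := by
    intro i
    rcases hb i with h | h
    · have h1 : clMap (σ i) (hF i) (cM hr.toSemi) = cM hr.toSemi := by
        rw [← e]
        exact h
      obtain ⟨h3, h4⟩ := red_fixed h2 hodd hirr.squarefree (σ i) (hF i) hr h1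
      exact ⟨h3, Or.inl h4⟩
    · have h1 : clMap (σ i) (hF i) (cM hr.toSemi) = (cM hr.toSemi)⁻¹ := by
        rw [← e]
        exact h
      obtain ⟨h3, h4⟩ := red_anti h2 hodd hirr.squarefree (σ i) (hF i) hr h1
      exact ⟨h3, Or.inr h4⟩
  by_cases h0 : ∀ i, V.map (σ i) = V
  · rw [eb, hA0 U V hr (fun i => (hUV i).1) h0]
    exact Submodule.zero_mem _
  · push Not at h0
    obtain ⟨j, hj⟩ := h0
    have hj' : V.map (σ j) = -V := (hUV j).2.resolve_left hj
    by_cases h1 : ∃ i, i ≠ j ∧ V.map (σ i) = -V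
    · obtain ⟨i, hij, hi⟩ := h1
      obtain ⟨h3, h4⟩ := hA2 i j U V hij hr (hUV i).1 hi hj'
      subst h3
      rw [eb, cM_one]
      exact Submodule.zero_mem _
    · push Not at h1
      obtain ⟨n, hn⟩ := hA1 j U V hr (fun i => (hUV i).1)
        (fun i hi => (hUV i).2.resolve_right (h1 i hi)) hj'
      rw [eb, hn]
      exact Submodule.smul_mem _ n (Submodule.subset_span ⟨j, rfl⟩)

include h2 hirr hF hx hy hA3 in
theorem pt_indep : LinearIndependent ℤ (ptc hpt) := by
  rw [Fintype.linearIndependent_iff]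
  intro g hg j
  have h1 := congrArg (act hF j) hg
  rw [map_sum, map_zero] at h1
  have h3 : ∀ i, act hF j (g i • ptc hpt i) =
      if i = j then -(g i • ptc hpt i) else g i • ptc hpt i := by
    intro i
    rw [map_zsmul, act_pt h2 hirr hF hpt hx hy]
    split_ifs
    · rw [smul_neg]
    · rfl
  have h4 : (2 * g j) • ptc hpt j = 0 := by
    have h5 : ∑ i, (g i • ptc hpt i - act hF j (g i • ptc hpt i)) = 0 := by
      rw [Finset.sum_sub_distrib, hg, h1, sub_zero]
    rw [← h5, Finset.sum_eq_single j]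
    · rw [h3, if_pos rfl, sub_neg_eq_add, mul_smul, two_smul]
    · intro i _ hi
      rw [h3, if_neg hi, sub_self]
    · intro h; exact (h (Finset.mem_univ j)).elim
  by_contra hne
  exact hA3 j (2 * g j) (mul_ne_zero two_ne_zero hne) h4

include h2 hodd hirr hF hcomm hinv hx hy hA0 hA1 hA2 hA3 in
/-- **The class group is free of rank `r`.** -/
theorem rank_free : Module.Free ℤ (Additive (ClassGroup (CR F))) ∧
    Module.Finite ℤ (Additive (ClassGroup (CR F))) ∧
    Module.finrank ℤ (Additive (ClassGroup (CR F))) = r := by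
  have hsp : ∀ Q : Additive (ClassGroup (CR F)), (2 ^ r) • Q ∈ Submodule.span ℤ
      (Set.range (ptc hpt)) := by
    intro Q
    have h1 := Pool.Agent.TH958.FP.sign_decomp (A := Additive (ClassGroup (CR F))) (act hF)
      (act_comm h2 hodd hirr hF hcomm) (act_inv h2 hodd hirr hF hinv) Finset.univ Q
    rw [Finset.card_univ, Fintype.card_fin] at h1
    have h3 : AddSubgroup.closure {b : Additive (ClassGroup (CR F)) | ∀ i ∈ Finset.univ,
        act hF i b = b ∨ act hF i b = -b} ≤ (Submodule.span ℤ (Set.range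
          (ptc hpt))).toAddSubgroup := by
      rw [AddSubgroup.closure_le]
      intro b hb
      exact eig_span h2 hodd hirr hF hpt hA0 hA1 hA2 b (fun j => hb j (Finset.mem_univ j))
    exact h3 h1
  refine Pool.Agent.TH958.FP.free_of (A := Additive (ClassGroup (CR F))) (ptc hpt)
    (pt_indep h2 hirr hF hpt hx hy hA3) ?_ r hsp
  intro a ha
  refine no_two_torsion h2 hodd hirr.squarefree hirr a.toMul ?_
  have h1 : 2 • a = Additive.ofMul (a.toMul ^ 2) := rfl
  rw [h1] at ha
  exact ha

end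

end Q45.RG
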