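import Pool.Agent.Q45.RG.BiOdd
import Pool.Agent.TH958.FP.Ring

/-!
# Extension of derivations and of irreducible polynomials
-/

set_option autoImplicit false
set_option maxHeartbeats 1000000

open Polynomial TensorProduct

namespace Q45.RG

/-- a derivation extends to a formally etale algebra -/
theorem ext_der {S T : Type} [CommRing S] [CommRing T] [Algebra S T] [Algebra.FormallyEtale S T]
    (D : Derivation ℤ S S) : ∃ D' : Derivation ℤ T T, ∀ s, D' (algebraMap S T s) =
      algebraMap S T (D s) := by
  let e := KaehlerDifferential.tensorKaehlerEquivOfFormallyEtale ℤ S T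
  let g : KaehlerDifferential ℤ S →ₗ[S] T :=
    (Algebra.linearMap S T).comp D.liftKaehlerDifferential
  let G : T ⊗[S] KaehlerDifferential ℤ S →ₗ[T] T := LinearMap.liftBaseChange T g
  refine ⟨(G.comp e.symm.toLinearMap).compDer (KaehlerDifferential.D ℤ T), ?_⟩
  intro s
  show G (e.symm (KaehlerDifferential.D ℤ T (algebraMap S T s))) = _
  rw [KaehlerDifferential.tensorKaehlerEquivOfFormallyEtale_symm_D_algebraMap]
  show LinearMap.liftBaseChange T g _ = _
  rw [LinearMap.liftBaseChange_tmul, one_smul]
  show algebraMap S T (D.liftKaehlerDifferential (KaehlerDifferential.D ℤ S s)) = _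
  rw [Derivation.liftKaehlerDifferential_comp_D]

/-- the extension to an algebraic extension of the fraction field -/
theorem ext_der' {P V K : Type} [CommRing P] [IsDomain P] [Field V] [CharZero V] [Field K]
    [Algebra P V] [IsFractionRing P V] [Algebra V K] [Algebra.IsAlgebraic V K]
    (D : Derivation ℤ P P) : ∃ D' : Derivation ℤ K K, ∀ s,
      D' (algebraMap V K (algebraMap P V s)) = algebraMap V K (algebraMap P V (D s)) := by
  have h1 : Algebra.FormallyEtale P V := Algebra.FormallyEtale.of_isLocalization (nonZeroDivisors P)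
  obtain ⟨D₁, hD₁⟩ := ext_der (T := V) D
  have h2 : Algebra.FormallyEtale V K := Algebra.FormallyEtale.of_isSeparable V K
  obtain ⟨D₂, hD₂⟩ := ext_der (T := K) D₁
  exact ⟨D₂, fun s => by rw [hD₂, hD₁]⟩

/-- irreducible polynomials of odd degree stay irreducible in extensions of degree `2 ^ r` -/
theorem irr_of_two_pow {V K : Type} [Field V] [Field K] [Algebra V K] [FiniteDimensional V K]
    {F : V[X]} (hF : F.Monic) (hi : Irreducible F) (hodd : Odd F.natDegree) (r : ℕ)
    (hr : Module.finrank V K = 2 ^ r) : Irreducible (F.map (algebraMap V K)) := by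
  have hFm : (F.map (algebraMap V K)).Monic := hF.map _
  have hnu : ¬ IsUnit (F.map (algebraMap V K)) := by
    intro h
    have h1 := hFm.isUnit_iff.1 h
    have h2 := congrArg natDegree h1
    rw [natDegree_map, natDegree_one] at h2
    rw [h2] at hodd
    exact absurd hodd (by decide)
  obtain ⟨p, hp, hpd⟩ := WfDvdMonoid.exists_irreducible_factor hnu hFm.ne_zero
  have hfact : Fact (Irreducible p) := ⟨hp⟩
  let E := AdjoinRoot p
  have hK : Module.finrank K E = p.natDegree := by
    rw [(AdjoinRoot.powerBasis hp.ne_zero).finrank, AdjoinRoot.powerBasis_dim]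
  have hfd : FiniteDimensional K E := (AdjoinRoot.powerBasis hp.ne_zero).finite
  have hfd2 : FiniteDimensional V E := FiniteDimensional.trans V K E
  have hmul : Module.finrank V K * Module.finrank K E = Module.finrank V E :=
    Module.finrank_mul_finrank V K E
  have hroot : aeval (AdjoinRoot.root p) F = 0 := by
    have h1 : aeval (AdjoinRoot.root p) (F.map (algebraMap V K)) = 0 := by
      obtain ⟨q, hq⟩ := hpd
      rw [hq, map_mul]
      have h2 : aeval (AdjoinRoot.root p) p = 0 := by
        rw [AdjoinRoot.aeval_eq, AdjoinRoot.mk_self]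
      rw [h2, zero_mul]
    rwa [aeval_map_algebraMap] at h1
  have hmin : F = minpoly V (AdjoinRoot.root p) :=
    minpoly.eq_of_irreducible_of_monic hi hroot hF
  have hdvd : F.natDegree ∣ Module.finrank V E := by
    rw [hmin]
    exact minpoly.degree_dvd (Algebra.IsIntegral.isIntegral _)
  rw [← hmul, hr, hK] at hdvd
  have hco : F.natDegree.Coprime (2 ^ r) := (Nat.Coprime.pow_right _
    (Nat.coprime_two_right.2 hodd))
  have hdvd2 : F.natDegree ∣ p.natDegree := hco.dvd_of_dvd_mul_left hdvd
  have hle : F.natDegree ≤ p.natDegree := Nat.le_of_dvd hp.natDegree_pos hdvd2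
  obtain ⟨q, hq⟩ := hpd
  have hq0 : q ≠ 0 := by
    rintro rfl
    rw [mul_zero] at hq
    exact hFm.ne_zero hq
  have h1 := congrArg natDegree hq
  rw [natDegree_map, natDegree_mul hp.ne_zero hq0] at h1
  have h2 : q.natDegree = 0 := by omega
  have h3 : IsUnit q := by
    rw [isUnit_iff_degree_eq_zero, degree_eq_natDegree hq0, h2]
    rfl
  rw [hq]
  exact (irreducible_mul_isUnit h3).2 hp

/-- the degree of a multiquadratic extension -/
theorem finrank_two_pow {V K : Type} [Field V] [Field K] [Algebra V K] {r : ℕ} {y : Fin r → K}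
    {w : Fin r → V} (h2 : (2 : V) ≠ 0) (hyw : ∀ i, y i ^ 2 = algebraMap V K (w i))
    (hadj : Algebra.adjoin V (Set.range y) = ⊤)
    (hs : ∀ S : Finset (Fin r), S.Nonempty → ¬ IsSquare (∏ i ∈ S, w i)) :
    FiniteDimensional V K ∧ Module.finrank V K = 2 ^ r := by
  have hspan := Pool.Agent.TH958.FP.span_top hyw hadj
  have hfin : FiniteDimensional V K := by
    have h1 : Module.Finite V (Submodule.span V (Set.range fun S : Finset (Fin r) =>
      ∏ i ∈ S, y i)) := Module.Finite.span_of_finite V (Set.finite_range _)
    rw [hspan] at h1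
    exact Module.Finite.equiv (Submodule.topEquiv : (⊤ : Submodule V K) ≃ₗ[V] K)
  have hli : LinearIndependent V (fun S : Finset (Fin r) => ∏ i ∈ S, y i) := by
    rw [Fintype.linearIndependent_iff]
    intro c hc S
    refine Pool.Agent.TH958.FP.lin_indep (V := V) (Ω := K) (η := y) h2 hyw Finset.univ
      (fun S _ hS => hs S hS) c ?_ S ?_
    · rw [Finset.powerset_univ, ← hc]
      exact Finset.sum_congr rfl fun S _ => by rw [Algebra.smul_def]
    · rw [Finset.powerset_univ]
      exact Finset.mem_univ _
  refine ⟨hfin, ?_⟩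
  rw [Module.finrank_eq_card_basis (Module.Basis.mk hli hspan.ge), Fintype.card_finset,
    Fintype.card_fin]

end Q45.RG
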