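import Pool.Agent.Q45.RG.Mum

/-!
# Field extensions and the class groups of the curves
-/

set_option autoImplicit false
set_option maxHeartbeats 2000000

open Polynomial Pool.Agent.TH943.HJ

namespace Q45.RG

section

variable {K K' : Type} [Field K] [Field K'] {F : K[X]} {F' : K'[X]} (φ : K →+* K')
  (h : F.map φ = F')

include h in
theorem crMap_aux : (X ^ 2 - C F : K[X][X]).eval₂ ((pp : K'[X] →+* CR F').comp (mapRingHom φ))
    (yy F') = 0 := by
  rw [eval₂_sub, eval₂_pow, eval₂_X, eval₂_C, yy_sq, RingHom.comp_apply, coe_mapRingHom, h,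
    sub_self]

/-- the base change of the coordinate ring -/
noncomputable def crMap : CR F →+* CR F' :=
  AdjoinRoot.lift ((pp : K'[X] →+* CR F').comp (mapRingHom φ)) (yy F') (crMap_aux φ h)

theorem crMap_pp (p : K[X]) : crMap φ h (pp p) = pp (p.map φ) :=
  AdjoinRoot.lift_of (i := (pp : K'[X] →+* CR F').comp (mapRingHom φ)) (h := crMap_aux φ h) (x := p)

theorem crMap_yy : crMap φ h (yy F) = yy F' :=
  AdjoinRoot.lift_root (i := (pp : K'[X] →+* CR F').comp (mapRingHom φ)) (crMap_aux φ h)

theorem crMap_el (p q : K[X]) : crMap φ h (el p q) = el (p.map φ) (q.map φ) := by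
  unfold el
  rw [map_add, map_mul, crMap_pp, crMap_pp, crMap_yy]

theorem crMap_inj : Function.Injective (crMap φ h) := by
  rw [injective_iff_map_eq_zero]
  intro z hz
  obtain ⟨p, q, rfl⟩ := exists_el z
  rw [crMap_el] at hz
  obtain ⟨h1, h2⟩ := el_eq_zero hz
  rw [Polynomial.map_eq_zero_iff φ.injective] at h1 h2
  rw [h1, h2, el_left, map_zero]

theorem map_pid (U V : K[X]) : Ideal.map (crMap φ h) (pid F U V) = pid F' (U.map φ) (V.map φ) := by
  unfold pid
  rw [Ideal.map_span, Set.image_pair, crMap_pp, map_sub, crMap_pp, crMap_yy]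

include h in
theorem Semi.map' {U V : K[X]} (hs : Semi F U V) : Semi F' (U.map φ) (V.map φ) := by
  refine ⟨hs.monic.map φ, ?_⟩
  rw [← h, ← Polynomial.map_pow, ← Polynomial.map_sub]
  exact Polynomial.map_dvd φ hs.dvd

include h in
theorem Red.map' {U V : K[X]} (hs : Red F U V) : Red F' (U.map φ) (V.map φ) := by
  refine ⟨hs.toSemi.map' φ h, ?_, ?_⟩
  · rw [degree_map, degree_map]
    exact hs.lt
  · rw [← h, natDegree_map, natDegree_map]
    exact hs.small

section
variable [IsDedekindDomain (CR F)] [IsDedekindDomain (CR F')]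

/-- the base change of the classes -/
noncomputable def clMap : ClassGroup (CR F) →* ClassGroup (CR F') :=
  letI : Algebra (CR F) (CR F') := (crMap φ h).toAlgebra
  haveI : Module.IsTorsionFree (CR F) (CR F') :=
    (Module.isTorsionFree_iff_algebraMap_injective).2 (crMap_inj φ h)
  ClassGroup.extendedHom (CR F) (CR F')

theorem clMap_cM {U V : K[X]} (hs : Semi F U V) : clMap φ h (cM hs) = cM (hs.map' φ h) := by
  let _ : Algebra (CR F) (CR F') := (crMap φ h).toAlgebra
  have _ : Module.IsTorsionFree (CR F) (CR F') :=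
    (Module.isTorsionFree_iff_algebraMap_injective).2 (crMap_inj φ h)
  show ClassGroup.extendedHom (CR F) (CR F') (cM hs) = _
  unfold cM cls
  rw [ClassGroup.extendedHom_mk0]
  congr 1
  apply Subtype.ext
  exact map_pid φ h U V

end

end

section

variable {K : Type} [Field K] {F : K[X]} [IsDedekindDomain (CR F)] (h2 : (2 : K) ≠ 0)
  (hodd : Odd F.natDegree) (hsq : Squarefree F) (σ : K →+* K) (h : F.map σ = F)

include h2 hodd hsq in
theorem red_fixed {U V : K[X]} (hr : Red F U V) (e : clMap σ h (cM hr.toSemi) = cM hr.toSemi) :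
    U.map σ = U ∧ V.map σ = V := by
  rw [clMap_cM] at e
  exact red_unique h2 hodd hsq (hr.map' σ h) hr e

include h2 hodd hsq in
theorem red_anti {U V : K[X]} (hr : Red F U V) (e : clMap σ h (cM hr.toSemi) = (cM hr.toSemi)⁻¹) :
    U.map σ = U ∧ V.map σ = -V := by
  rw [clMap_cM, ← cM_inv h2 hsq] at e
  exact red_unique h2 hodd hsq (hr.map' σ h) hr.neg e

include h2 hodd hsq in
/-- a class with `c ^ 2 = 1` is trivial if `F` is irreducible -/
theorem no_two_torsion (hF : Irreducible F) (c : ClassGroup (CR F)) (hc : c ^ 2 = 1) : c = 1 := by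
  obtain ⟨U, V, hr, rfl⟩ := exists_red h2 hodd hsq c
  have e : cM hr.neg.toSemi = cM hr.toSemi := by
    have h3 : cM hr.toSemi.neg = (cM hr.toSemi)⁻¹ := cM_inv h2 hsq hr.toSemi
    have h4 : (cM hr.toSemi)⁻¹ = cM hr.toSemi := by
      rw [inv_eq_iff_mul_eq_one, ← sq, hc]
    exact h3.trans h4
  obtain ⟨_, h5⟩ := red_unique h2 hodd hsq hr.neg hr e
  have h6 : V = 0 := by
    have h7 : (2 : K[X]) * V = 0 := by linear_combination -h5
    rcases mul_eq_zero.1 h7 with h8 | h8
    · exfalso
      have := half_two h2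
      rw [h8, mul_zero] at this
      exact zero_ne_one this
    · exact h8
  have h7 : U ∣ F := by
    have := hr.dvd
    rwa [h6, sq, mul_zero, sub_zero] at this
  have h8 : IsUnit U := by
    rcases hF.dvd_iff.1 h7 with h9 | h9
    · exact h9
    · exfalso
      have h10 := natDegree_eq_of_degree_eq (degree_eq_degree_of_associated h9)
      have := hr.small
      omega
  have h9 : U = 1 := hr.monic.isUnit_iff.1 h8
  subst h9
  exact cM_one _

end

end Q45.RG
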