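import Pool.Agent.Q45.RG.Rigid
import Pool.Agent.Q45.RG.Map

/-!
# Classes which are odd in two points are trivial
-/

set_option autoImplicit false
set_option maxHeartbeats 1000000

open Polynomial Pool.Agent.TH943.HJ

namespace Q45.RG

/-- A field generated by `S` and the points `(x_i, y_i)` of the curve `y ^ 2 = F(x)`, with the sign
changes of the `y_i` and the derivations for the `x_i`. -/
structure Net (K : Type) [Field K] {r : ℕ} (F : K[X]) (x y : Fin r → K) (σ : Fin r → K →+* K)
    (d : Fin r → Derivation ℤ K K) (S : Set K) : Prop where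
  mon : F.Monic
  irr : Irreducible F
  three : 3 ≤ F.natDegree
  odd : Odd F.natDegree
  coef : ∀ n, F.coeff n ∈ Subfield.closure S
  sq : ∀ i, y i ^ 2 = F.eval (x i)
  gen : Subfield.closure (S ∪ (Set.range x ∪ Set.range y)) = ⊤
  sS : ∀ i, ∀ s ∈ S, σ i s = s
  sx : ∀ i j, σ i (x j) = x j
  sy : ∀ i j, σ i (y j) = if j = i then -y j else y j
  dS : ∀ i, ∀ s ∈ S, d i s = 0
  dx : ∀ i j, d i (x j) = if j = i then 1 else 0

section

variable {K : Type} [Field K] [CharZero K] {r : ℕ} {F : K[X]} {x y : Fin r → K}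
  {σ : Fin r → K →+* K} {d : Fin r → Derivation ℤ K K} {S : Set K} (N : Net K F x y σ d S)

/-- the field without the point `i` -/
def Mi (S : Set K) (x y : Fin r → K) (i : Fin r) : Subfield K :=
  Subfield.closure (S ∪ {z | ∃ l, l ≠ i ∧ (z = x l ∨ z = y l)})

/-- the field without `y_i` -/
def Ki (S : Set K) (x y : Fin r → K) (i : Fin r) : Subfield K :=
  Subfield.closure (insert (x i) (S ∪ {z | ∃ l, l ≠ i ∧ (z = x l ∨ z = y l)}))

omit [CharZero K] in
theorem Mi_le (i : Fin r) : Mi S x y i ≤ Ki S x y i :=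
  Subfield.closure_mono (Set.subset_insert _ _)

omit [CharZero K] in
theorem S_le (i : Fin r) : Subfield.closure S ≤ Mi S x y i :=
  Subfield.closure_mono Set.subset_union_left

omit [CharZero K] in
theorem x_mem (i : Fin r) : x i ∈ Ki S x y i := Subfield.subset_closure (Set.mem_insert _ _)

omit [CharZero K] in
/-- a derivation of a field generated by a set -/
theorem der_closure {A : Set K} {B : Subfield K} (D : Derivation ℤ K K) (hA : A ⊆ B)
    (h : ∀ a ∈ A, D a ∈ B) : ∀ z ∈ Subfield.closure A, D z ∈ B := by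
  intro z hz
  have hle : Subfield.closure A ≤ B := Subfield.closure_le.2 hA
  induction hz using Subfield.closure_induction with
  | mem a ha => exact h a ha
  | one => rw [D.map_one_eq_zero]; exact B.zero_mem
  | add a b _ _ ha hb => rw [map_add]; exact B.add_mem ha hb
  | neg a _ ha => rw [map_neg]; exact B.neg_mem ha
  | inv a h1 ha =>
    rw [D.leibniz_inv]
    simp only [smul_eq_mul]
    exact B.mul_mem (B.neg_mem (B.pow_mem (B.inv_mem (hle h1)) 2)) ha
  | mul a b h1 h2 ha hb =>
    rw [D.leibniz]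
    simp only [smul_eq_mul]
    exact B.add_mem (B.mul_mem (hle h1) hb) (B.mul_mem (hle h2) ha)

omit [CharZero K] in
theorem der_closure_zero {A : Set K} (D : Derivation ℤ K K) (h : ∀ a ∈ A, D a = 0) :
    ∀ z ∈ Subfield.closure A, D z = 0 := by
  intro z hz
  induction hz using Subfield.closure_induction with
  | mem a ha => exact h a ha
  | one => exact D.map_one_eq_zero
  | add a b _ _ ha hb => rw [map_add, ha, hb, add_zero]
  | neg a _ ha => rw [map_neg, ha, neg_zero]
  | inv a h1 ha => rw [D.leibniz_inv, ha, smul_zero]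
  | mul a b h1 h2 ha hb => rw [D.leibniz, ha, hb, smul_zero, smul_zero, add_zero]

/-- the elements fixed by a homomorphism -/
theorem fix_closure {A : Set K} (s : K →+* K) (h : ∀ a ∈ A, s a = a) :
    ∀ z ∈ Subfield.closure A, s z = z := by
  intro z hz
  induction hz using Subfield.closure_induction with
  | mem a ha => exact h a ha
  | one => exact map_one s
  | add a b _ _ ha hb => rw [map_add, ha, hb]
  | neg a _ ha => rw [map_neg, ha]
  | inv a h1 ha => rw [map_inv₀, ha]
  | mul a b h1 h2 ha hb => rw [map_mul, ha, hb]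

include N

theorem Net.F_map (i : Fin r) : F.map (σ i) = F := by
  ext n
  rw [coeff_map]
  exact fix_closure (σ i) (N.sS i) _ (N.coef n)

omit [CharZero K] in
theorem Net.dF (i : Fin r) : dc (d i) F = 0 := by
  ext n
  rw [coeff_dc, coeff_zero]
  exact der_closure_zero (d i) (N.dS i) _ (N.coef n)

theorem Net.y_ne (i : Fin r) : y i ≠ 0 := by
  intro h
  have h1 := N.sq i
  rw [h, zero_pow two_ne_zero] at h1
  have h3 := degree_eq_one_of_irreducible_of_root N.irr h1.symm
  have h4 : F.natDegree = 1 := natDegree_eq_of_degree_eq_some h3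
  have := N.three
  omega

theorem Net.dy (i j : Fin r) (h : j ≠ i) : d i (y j) = 0 := by
  apply D_zero_of_sq _ (N.y_ne j)
  rw [N.sq, eval_dc, N.dF, eval_zero, N.dx, if_neg h, mul_zero, add_zero]

/-- the derivation of `x_i` is zero on the other points -/
theorem Net.d_Mi (i : Fin r) : ∀ z ∈ Mi S x y i, d i z = 0 := by
  apply der_closure_zero
  rintro z (hz | ⟨l, hl, rfl | rfl⟩)
  · exact N.dS i z hz
  · rw [N.dx, if_neg hl]
  · exact N.dy i l hl

theorem Net.s_Ki (i : Fin r) : ∀ z ∈ Ki S x y i, σ i z = z := by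
  apply fix_closure
  rintro z (rfl | hz | ⟨l, hl, rfl | rfl⟩)
  · exact N.sx i i
  · exact N.sS i z hz
  · exact N.sx i l
  · rw [N.sy, if_neg hl]

/-- `K = K_i + K_i y_i` -/
theorem Net.decomp (i : Fin r) (z : K) : ∃ a ∈ Ki S x y i, ∃ b ∈ Ki S x y i, z = a + b * y i := by
  have hw : y i ^ 2 ∈ Ki S x y i := by
    rw [N.sq, eval_eq_sum_range]
    refine sum_mem fun n _ => mul_mem (Mi_le i (S_le i (N.coef n))) (pow_mem (x_mem i) n)
  have hz : z ∈ Subfield.closure (S ∪ (Set.range x ∪ Set.range y)) := by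
    rw [N.gen]; trivial
  induction hz using Subfield.closure_induction with
  | mem a ha =>
    by_cases hai : a = y i
    · exact ⟨0, zero_mem _, 1, one_mem _, by rw [hai]; ring⟩
    · refine ⟨a, ?_, 0, zero_mem _, by ring⟩
      rcases ha with ha | ⟨l, rfl⟩ | ⟨l, rfl⟩
      · exact Subfield.subset_closure (Or.inr (Or.inl ha))
      · by_cases hl : l = i
        · rw [hl]; exact x_mem i
        · exact Subfield.subset_closure (Or.inr (Or.inr ⟨l, hl, Or.inl rfl⟩))
      · have hl : l ≠ i := by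
          rintro rfl
          exact hai rfl
        exact Subfield.subset_closure (Or.inr (Or.inr ⟨l, hl, Or.inr rfl⟩))
  | one => exact ⟨1, one_mem _, 0, zero_mem _, by ring⟩
  | add a b _ _ ha hb =>
    obtain ⟨a₁, h1, a₂, h2, rfl⟩ := ha
    obtain ⟨b₁, h3, b₂, h4, rfl⟩ := hb
    exact ⟨a₁ + b₁, add_mem h1 h3, a₂ + b₂, add_mem h2 h4, by ring⟩
  | neg a _ ha =>
    obtain ⟨a₁, h1, a₂, h2, rfl⟩ := ha
    exact ⟨-a₁, neg_mem h1, -a₂, neg_mem h2, by ring⟩
  | inv a _ ha =>
    obtain ⟨a₁, h1, a₂, h2, rfl⟩ := ha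
    by_cases h0 : a₁ + a₂ * y i = 0
    · exact ⟨0, zero_mem _, 0, zero_mem _, by rw [h0]; simp⟩
    · have h3 : a₁ - a₂ * y i ≠ 0 := by
        have h4 : σ i (a₁ + a₂ * y i) = a₁ - a₂ * y i := by
          rw [map_add, map_mul, N.s_Ki i a₁ h1, N.s_Ki i a₂ h2, N.sy, if_pos rfl]
          ring
        rw [← h4]
        exact (_root_.map_ne_zero _).2 h0
      have h5 : (a₁ ^ 2 - a₂ ^ 2 * y i ^ 2) ∈ Ki S x y i :=
        sub_mem (pow_mem h1 2) (mul_mem (pow_mem h2 2) hw)
      have h6 : a₁ ^ 2 - a₂ ^ 2 * y i ^ 2 = (a₁ + a₂ * y i) * (a₁ - a₂ * y i) := by ring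
      refine ⟨a₁ / (a₁ ^ 2 - a₂ ^ 2 * y i ^ 2), div_mem h1 h5, -a₂ / (a₁ ^ 2 - a₂ ^ 2 * y i ^ 2),
        div_mem (neg_mem h2) h5, ?_⟩
      rw [h6]
      field_simp
      ring
  | mul a b _ _ ha hb =>
    obtain ⟨a₁, h1, a₂, h2, rfl⟩ := ha
    obtain ⟨b₁, h3, b₂, h4, rfl⟩ := hb
    exact ⟨a₁ * b₁ + a₂ * b₂ * y i ^ 2, add_mem (mul_mem h1 h3) (mul_mem (mul_mem h2 h4) hw),
      a₁ * b₂ + a₂ * b₁, add_mem (mul_mem h1 h4) (mul_mem h2 h3), by ring⟩

theorem Net.fixed (i : Fin r) (z : K) (hz : σ i z = z) : z ∈ Ki S x y i := by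
  obtain ⟨a, ha, b, hb, rfl⟩ := N.decomp i z
  rw [map_add, map_mul, N.s_Ki i a ha, N.s_Ki i b hb, N.sy, if_pos rfl] at hz
  have h1 : 2 * (b * y i) = 0 := by linear_combination -hz
  have h2 : b * y i = 0 := (mul_eq_zero.1 h1).resolve_left two_ne_zero
  rw [h2, add_zero]
  exact ha

theorem Net.anti (i : Fin r) (z : K) (hz : σ i z = -z) : ∃ b ∈ Ki S x y i, z = b * y i := by
  obtain ⟨a, ha, b, hb, rfl⟩ := N.decomp i z
  rw [map_add, map_mul, N.s_Ki i a ha, N.s_Ki i b hb, N.sy, if_pos rfl] at hz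
  have h1 : 2 * a = 0 := by linear_combination hz
  have h2 : a = 0 := (mul_eq_zero.1 h1).resolve_left two_ne_zero
  exact ⟨b, hb, by rw [h2, zero_add]⟩

omit [CharZero K] N in
/-- the elements of `K_i` are fractions in `x_i` -/
theorem frac (i : Fin r) (z : K) (hz : z ∈ Ki S x y i) :
    ∃ p q : (Mi S x y i)[X], aeval (x i) q ≠ 0 ∧ z * aeval (x i) q = aeval (x i) p := by
  induction hz using Subfield.closure_induction with
  | mem a ha =>
    rcases ha with rfl | ha
    · exact ⟨X, 1, by rw [map_one]; exact one_ne_zero, by rw [map_one, mul_one, aeval_X]⟩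
    · refine ⟨C ⟨a, Subfield.subset_closure ha⟩, 1, by rw [map_one]; exact one_ne_zero, ?_⟩
      rw [map_one, mul_one, aeval_C]
      rfl
  | one => exact ⟨1, 1, by rw [map_one]; exact one_ne_zero, by rw [map_one, mul_one]⟩
  | add a b _ _ ha hb =>
    obtain ⟨p, q, h1, h2⟩ := ha
    obtain ⟨p', q', h3, h4⟩ := hb
    refine ⟨p * q' + p' * q, q * q', by rw [map_mul]; exact mul_ne_zero h1 h3, ?_⟩
    rw [map_mul, map_add, map_mul, map_mul]
    linear_combination (aeval (x i) q') * h2 + (aeval (x i) q) * h4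
  | neg a _ ha =>
    obtain ⟨p, q, h1, h2⟩ := ha
    exact ⟨-p, q, h1, by rw [map_neg, ← h2]; ring⟩
  | inv a _ ha =>
    obtain ⟨p, q, h1, h2⟩ := ha
    by_cases h0 : a = 0
    · exact ⟨0, 1, by rw [map_one]; exact one_ne_zero, by rw [h0]; simp⟩
    · refine ⟨q, p, ?_, ?_⟩
      · rw [← h2]
        exact mul_ne_zero h0 h1
      · rw [← h2, ← mul_assoc, inv_mul_cancel₀ h0, one_mul]
  | mul a b _ _ ha hb =>
    obtain ⟨p, q, h1, h2⟩ := ha
    obtain ⟨p', q', h3, h4⟩ := hb
    refine ⟨p * p', q * q', by rw [map_mul]; exact mul_ne_zero h1 h3, ?_⟩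
    rw [map_mul, map_mul, ← h2, ← h4]
    ring

/-- `x_i` is transcendental over the other points -/
theorem Net.trans (i : Fin r) : Transcendental (Mi S x y i) (x i) := by
  intro h
  have hint : IsIntegral (Mi S x y i) (x i) := h.isIntegral
  set p := minpoly (Mi S x y i) (x i) with hp
  have hcz : CharZero (Mi S x y i) := inferInstance
  have hsep : p.Separable := (minpoly.irreducible hint).separable
  have h1 := eval_dc (d i) (x i) (p.map (algebraMap (Mi S x y i) K))
  have h2 : dc (d i) (p.map (algebraMap (Mi S x y i) K)) = 0 := by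
    ext n
    rw [coeff_dc, coeff_map, coeff_zero]
    exact N.d_Mi i _ (p.coeff n).2
  rw [h2, eval_zero, zero_add, N.dx, if_pos rfl, mul_one, eval_map_algebraMap, minpoly.aeval,
    map_zero, derivative_map, eval_map_algebraMap] at h1
  exact hsep.aeval_derivative_ne_zero (minpoly.aeval _ _) h1.symm

/-- the values of the derivation of `x_j` in the fields for the point `i` -/
theorem Net.d_gen (i j : Fin r) (hij : i ≠ j) (B : Subfield K)
    (hB : ∀ a ∈ S ∪ {z | ∃ l, l ≠ i ∧ (z = x l ∨ z = y l)}, a ∈ B) :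
    ∀ a ∈ S ∪ {z | ∃ l, l ≠ i ∧ (z = x l ∨ z = y l)}, d j a ∈ B := by
  rintro a (ha | ⟨l, hl, rfl | rfl⟩)
  · rw [N.dS j a ha]; exact zero_mem _
  · rw [N.dx]
    split_ifs
    · exact one_mem _
    · exact zero_mem _
  · by_cases hlj : l = j
    · subst hlj
      have h1 : 2 * y l * d l (y l) = F.derivative.eval (x l) := by
        have h2 := eval_dc (d l) (x l) F
        rw [N.dF, eval_zero, zero_add, N.dx, if_pos rfl, mul_one, ← N.sq,
          (d l).leibniz_pow] at h2
        rw [← h2]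
        simp only [smul_eq_mul, nsmul_eq_mul]
        push_cast
        ring
      have h2 : d l (y l) = F.derivative.eval (x l) / (2 * y l) := by
        rw [eq_div_iff (mul_ne_zero two_ne_zero (N.y_ne l)), mul_comm]
        exact h1
      rw [h2]
      have hyB : y l ∈ B := hB _ (Or.inr ⟨l, hl, Or.inr rfl⟩)
      have hxB : x l ∈ B := hB _ (Or.inr ⟨l, hl, Or.inl rfl⟩)
      have hSB : Subfield.closure S ≤ B :=
        Subfield.closure_le.2 fun s hs => hB s (Or.inl hs)
      refine div_mem ?_ (mul_mem (by exact_mod_cast natCast_mem B 2) hyB)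
      rw [eval_eq_sum_range]
      refine sum_mem fun n _ => mul_mem ?_ (pow_mem hxB n)
      rw [coeff_derivative]
      refine mul_mem (hSB (N.coef _)) ?_
      exact_mod_cast natCast_mem B (n + 1)
    · rw [N.dy j l hlj]
      exact zero_mem _

theorem Net.d_Mi_mem (i j : Fin r) (hij : i ≠ j) : ∀ z ∈ Mi S x y i, d j z ∈ Mi S x y i :=
  der_closure _ Subfield.subset_closure
    (N.d_gen i j hij _ fun _ ha => Subfield.subset_closure ha)

theorem Net.d_Ki_mem (i j : Fin r) (hij : i ≠ j) : ∀ z ∈ Ki S x y i, d j z ∈ Ki S x y i := by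
  apply der_closure _ Subfield.subset_closure
  rintro a (rfl | ha)
  · rw [N.dx, if_neg hij]
    exact zero_mem _
  · exact N.d_gen i j hij _ (fun b hb => Subfield.subset_closure (Or.inr hb)) a ha

omit N [CharZero K] in
theorem lift_poly (B : Subfield K) (p : K[X]) (h : ∀ n, p.coeff n ∈ B) :
    ∃ q : B[X], q.map (algebraMap B K) = p := by
  have h1 : p ∈ lifts (algebraMap B K) := by
    rw [lifts_iff_coeff_lifts]
    intro n
    exact ⟨⟨_, h n⟩, rfl⟩
  exact (mem_lifts p).1 h1

omit N [CharZero K] in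
/-- rigidity for abstract fields -/
theorem dU_abs {M K₀ : Type} [Field M] [CharZero M] [Field K₀] [Algebra M K₀] [Algebra K₀ K]
    [Algebra M K] [IsScalarTower M K₀ K] (D : Derivation ℤ K K)
    (hDK : ∀ z : K₀, ∃ z', D (algebraMap K₀ K z) = algebraMap K₀ K z')
    (hDM : ∀ m : M, ∃ m', D (algebraMap M K m) = algebraMap M K m') (x₀ : K₀)
    (hDx : D (algebraMap K₀ K x₀) = 0) (htr : Transcendental M (algebraMap K₀ K x₀))
    (hfrac : ∀ z : K₀, ∃ p q : M[X], aeval (algebraMap K₀ K x₀) q ≠ 0 ∧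
      algebraMap K₀ K z * aeval (algebraMap K₀ K x₀) q = aeval (algebraMap K₀ K x₀) p)
    {F : K[X]} (hmon : F.Monic) (hirr : Irreducible F) (hthree : 3 ≤ F.natDegree)
    (hDF : dc D F = 0) (FM : M[X]) (hFM : FM.map (algebraMap M K) = F) {U V : K[X]}
    (hr : Red F U V) (U₀ V₁ : K₀[X]) (hU₀ : U₀.map (algebraMap K₀ K) = U) (y : K) (hy : y ≠ 0)
    (hy2 : y ^ 2 = F.eval (algebraMap K₀ K x₀)) (hV₁ : V₁.map (algebraMap K₀ K) = C y⁻¹ * V) :
    dc D U = 0 := by
  classical
  have hinjK : Function.Injective (algebraMap K₀ K) := (algebraMap K₀ K).injective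
  choose g hg using hDK
  let D₀ : Derivation ℤ K₀ K₀ := Derivation.mk'
    { toFun := g
      map_add' := fun a b => hinjK (by rw [← hg, map_add, map_add, hg, hg, map_add])
      map_smul' := fun n a => hinjK (by
        rw [← hg, map_zsmul, map_zsmul, hg, eq_intCast, Int.cast_id, map_zsmul]) }
    (fun a b => hinjK (by
      show algebraMap K₀ K (g (a * b)) = algebraMap K₀ K (a • g b + b • g a)
      rw [← hg, map_mul, D.leibniz, hg, hg, map_add]
      simp only [smul_eq_mul, map_mul]))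
  have hD₀ : ∀ z : K₀, D (algebraMap K₀ K z) = algebraMap K₀ K (D₀ z) := hg
  have haev : ∀ p : M[X], algebraMap K₀ K (aeval x₀ p) = aeval (algebraMap K₀ K x₀) p := by
    intro p
    rw [← aeval_algebraMap_apply]
  have hFM' : (FM.map (algebraMap M K₀)).map (algebraMap K₀ K) = F := by
    rw [Polynomial.map_map, ← IsScalarTower.algebraMap_eq, hFM]
  have hm : FM.Monic := monic_of_injective (algebraMap M K).injective (by rw [hFM]; exact hmon)
  have hres := rigid (M := M) (K₀ := K₀) (x := x₀) (D₀ := D₀) (F := FM)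
    (U := U₀) (V₁ := V₁) ?_ ?_ ?_ ?_ hm ?_ ?_ ?_ ?_ ?_ ?_
  · have h3 : dc D (U₀.map (algebraMap K₀ K)) = (dc D₀ U₀).map (algebraMap K₀ K) := dc_map hD₀ U₀
    rw [hU₀, hres, Polynomial.map_zero] at h3
    exact h3
  · intro h
    exact htr (h.algebraMap (A := K))
  · intro z
    obtain ⟨p, q, h3, h4⟩ := hfrac z
    refine ⟨p, q, ?_, ?_⟩
    · intro h0
      apply h3
      rw [← haev, h0, map_zero]
    · apply hinjK
      rw [map_mul, haev, haev]
      exact h4
  · intro m
    obtain ⟨m', hm'⟩ := hDM m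
    refine ⟨m', ?_⟩
    apply hinjK
    rw [← hD₀, ← IsScalarTower.algebraMap_apply, ← IsScalarTower.algebraMap_apply, hm']
  · apply hinjK
    rw [← hD₀, hDx, map_zero]
  · exact hm.irreducible_of_irreducible_map (algebraMap M K) FM (by rw [hFM]; exact hirr)
  · rw [← natDegree_map (algebraMap M K), hFM]
    exact hthree
  · intro n
    apply hinjK
    rw [← hD₀, ← IsScalarTower.algebraMap_apply, ← coeff_map, hFM, map_zero, ← coeff_dc, hDF,
      coeff_zero]
  · exact monic_of_injective hinjK (by rw [hU₀]; exact hr.monic)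
  · rw [← Polynomial.map_dvd_map' (algebraMap K₀ K), hU₀, Polynomial.map_sub, hFM',
      Polynomial.map_mul, Polynomial.map_pow, map_C, hV₁, haev]
    have h3 : aeval (algebraMap K₀ K x₀) FM = y ^ 2 := by
      rw [hy2, ← hFM, eval_map_algebraMap]
    have h4 : C (y ^ 2) * (C y⁻¹ * V) ^ 2 = V ^ 2 := by
      rw [mul_pow, ← mul_assoc, ← C_pow, ← C_mul, ← mul_pow, mul_inv_cancel₀ hy, one_pow,
        C_1, one_mul]
    rw [h3, h4]
    exact hr.dvd
  · rw [← natDegree_map (algebraMap K₀ K), hU₀,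
      ← natDegree_map (f := algebraMap M K) (p := FM), hFM]
    exact hr.small

/-- the derivation of `x_j` kills the first coordinates -/
theorem Net.dU (i j : Fin r) (hij : i ≠ j) {U V : K[X]} (hr : Red F U V)
    (h1 : U.map (σ i) = U) (h2 : V.map (σ i) = -V) : dc (d j) U = 0 := by
  have hUc : ∀ n, U.coeff n ∈ Ki S x y i := by
    intro n
    apply N.fixed i
    rw [← coeff_map, h1]
  have hVc : ∀ n, (C (y i)⁻¹ * V).coeff n ∈ Ki S x y i := by
    intro n
    obtain ⟨b, hb, e⟩ := N.anti i (V.coeff n) (by rw [← coeff_map, h2, coeff_neg])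
    rw [coeff_C_mul, e, mul_comm b, ← mul_assoc, inv_mul_cancel₀ (N.y_ne i), one_mul]
    exact hb
  obtain ⟨U₀, hU₀⟩ := lift_poly _ U hUc
  obtain ⟨V₁, hV₁⟩ := lift_poly _ _ hVc
  obtain ⟨FM, hFM⟩ := lift_poly (Mi S x y i) F fun n => S_le i (N.coef n)
  let _ : Algebra (Mi S x y i) (Ki S x y i) := (Subfield.inclusion (Mi_le i)).toAlgebra
  have htow : IsScalarTower (Mi S x y i) (Ki S x y i) K :=
    IsScalarTower.of_algebraMap_eq' rfl
  have hcz : CharZero (Mi S x y i) := inferInstance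
  refine dU_abs (M := Mi S x y i) (K₀ := Ki S x y i) (d j) ?_ ?_ ⟨x i, x_mem i⟩ ?_ ?_ ?_ N.mon N.irr
    N.three (N.dF j) FM hFM hr U₀ V₁ hU₀ (y i) (N.y_ne i) (N.sq i) hV₁
  · intro z
    exact ⟨⟨_, N.d_Ki_mem i j hij z.1 z.2⟩, rfl⟩
  · intro z
    exact ⟨⟨_, N.d_Mi_mem i j hij z.1 z.2⟩, rfl⟩
  · show d j (x i) = 0
    rw [N.dx, if_neg hij]
  · exact N.trans i
  · intro z
    exact frac i z.1 z.2

omit [CharZero K] in
theorem Net.cop {U V : K[X]} (hr : Red F U V) : IsCoprime U V := by
  apply isCoprime_of_irreducible_dvd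
  · rintro ⟨h, _⟩
    exact hr.monic.ne_zero h
  · intro p hp hpU hpV
    have h1 : p ∣ F := by
      have e : F = (F - V ^ 2) + V ^ 2 := by ring
      rw [e]
      exact dvd_add (hpU.trans hr.dvd) (dvd_pow hpV two_ne_zero)
    rcases N.irr.dvd_iff.1 h1 with h3 | h3
    · exact hp.not_isUnit h3
    · have h4 := natDegree_eq_of_degree_eq (degree_eq_degree_of_associated h3)
      have h5 := natDegree_le_of_dvd hpU hr.monic.ne_zero
      have h6 := hr.small
      omega

/-- the derivation kills the second coordinates -/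
theorem Net.dV {U V : K[X]} (hr : Red F U V) (j : Fin r) (hU : dc (d j) U = 0) :
    dc (d j) V = 0 := by
  obtain ⟨R, hR⟩ := hr.dvd
  have h1 := congrArg (dc (d j)) hR
  rw [map_sub, N.dF, (dc (d j)).leibniz, hU, (dc (d j)).leibniz_pow] at h1
  simp only [smul_eq_mul, nsmul_eq_mul, mul_zero, add_zero, zero_sub] at h1
  push_cast at h1
  have h2 : U ∣ V * dc (d j) V := by
    have h3 : U ∣ 2 * (V * dc (d j) V) := ⟨-dc (d j) R, by linear_combination -h1⟩
    exact ((isUnit_two (K := K) two_ne_zero).dvd_mul_left).1 h3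
  have h3 : U ∣ dc (d j) V := (N.cop hr).dvd_of_dvd_mul_left h2
  by_contra h4
  have h5 := degree_le_of_dvd h3 h4
  exact absurd (lt_of_le_of_lt (h5.trans (degree_dc_le _ _)) hr.lt) (lt_irrefl _)

omit N in
theorem deg_eq {B : Type} [Field B] [CharZero B] {P Q : B[X]} (hP : P ≠ 0) (hQ : Q ≠ 0)
    (h : P * derivative Q = Q * derivative P) : P.natDegree = Q.natDegree := by
  rcases Nat.eq_zero_or_pos Q.natDegree with hq | hq
  · have h1 : derivative Q = 0 := by
      rw [eq_C_of_natDegree_eq_zero hq, derivative_C]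
    rw [h1, mul_zero] at h
    have h2 : derivative P = 0 := (mul_eq_zero.1 h.symm).resolve_left hQ
    rw [hq, derivative_eq_zero.1 h2]
  rcases Nat.eq_zero_or_pos P.natDegree with hp | hp
  · have h1 : derivative P = 0 := by
      rw [eq_C_of_natDegree_eq_zero hp, derivative_C]
    rw [h1, mul_zero] at h
    have h2 : derivative Q = 0 := (mul_eq_zero.1 h).resolve_left hP
    rw [hp, derivative_eq_zero.1 h2]
  have h1 : (P * derivative Q).coeff (P.natDegree + (Q.natDegree - 1)) =
      (Q * derivative P).coeff (P.natDegree + (Q.natDegree - 1)) := by rw [h]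
  rw [coeff_mul_add_eq_of_natDegree_le le_rfl (natDegree_derivative_le Q)] at h1
  have h2 : P.natDegree + (Q.natDegree - 1) = Q.natDegree + (P.natDegree - 1) := by omega
  rw [h2, coeff_mul_add_eq_of_natDegree_le le_rfl (natDegree_derivative_le P), coeff_derivative,
    coeff_derivative, Nat.sub_add_cancel hq, Nat.sub_add_cancel hp, coeff_natDegree,
    coeff_natDegree] at h1
  have h3 : P.leadingCoeff * Q.leadingCoeff ≠ 0 :=
    mul_ne_zero (leadingCoeff_ne_zero.2 hP) (leadingCoeff_ne_zero.2 hQ)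
  have h4 : (((Q.natDegree - 1 : ℕ) : B) + 1) = (Q.natDegree : B) := by
    have h9 : ((Q.natDegree - 1 + 1 : ℕ) : B) = (Q.natDegree : B) := by
      rw [Nat.sub_add_cancel hq]
    rw [← h9]
    push_cast
    rfl
  have h5 : (((P.natDegree - 1 : ℕ) : B) + 1) = (P.natDegree : B) := by
    have h9 : ((P.natDegree - 1 + 1 : ℕ) : B) = (P.natDegree : B) := by
      rw [Nat.sub_add_cancel hp]
    rw [← h9]
    push_cast
    rfl
  rw [h4, h5] at h1
  have h6 : (Q.natDegree : B) = (P.natDegree : B) := by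
    apply mul_left_cancel₀ h3
    linear_combination h1
  exact_mod_cast h6.symm

/-- an odd constant is zero -/
theorem Net.odd_const (j : Fin r) (z : K) (hs : σ j z = -z) (hd : d j z = 0) : z = 0 := by
  obtain ⟨b, hb, rfl⟩ := N.anti j z hs
  obtain ⟨p, q, h1, h2⟩ := frac j b hb
  by_contra hz
  have hb0 : b ≠ 0 := by
    rintro rfl
    exact hz (zero_mul _)
  obtain ⟨FM, hFM⟩ := lift_poly (Mi S x y j) F fun n => S_le j (N.coef n)
  have hFx : aeval (x j) FM = y j ^ 2 := by
    rw [N.sq, ← hFM, eval_map_algebraMap]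
  have hinj := transcendental_iff_injective.1 (N.trans j)
  have hder : ∀ g : (Mi S x y j)[X], d j (aeval (x j) g) = aeval (x j) (derivative g) := by
    intro g
    have h3 := eval_dc (d j) (x j) (g.map (algebraMap (Mi S x y j) K))
    have h4 : dc (d j) (g.map (algebraMap (Mi S x y j) K)) = 0 := by
      ext n
      rw [coeff_dc, coeff_map, coeff_zero]
      exact N.d_Mi j _ (g.coeff n).2
    rw [h4, eval_zero, zero_add, N.dx, if_pos rfl, mul_one, eval_map_algebraMap, derivative_map,
      eval_map_algebraMap] at h3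
    exact h3
  have hq0 : q ≠ 0 := by
    rintro rfl
    exact h1 (map_zero _)
  have hp0 : p ≠ 0 := by
    rintro rfl
    rw [map_zero] at h2
    rcases mul_eq_zero.1 h2 with h | h
    · exact hb0 h
    · exact h1 h
  have hFM0 : FM ≠ 0 := by
    rintro rfl
    rw [Polynomial.map_zero] at hFM
    exact N.irr.ne_zero hFM.symm
  have hv : (b * y j) ^ 2 * aeval (x j) (q ^ 2) = aeval (x j) (p ^ 2 * FM) := by
    rw [map_mul, map_pow, map_pow, hFx, ← h2]
    ring
  have hdv : d j ((b * y j) ^ 2) = 0 := by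
    rw [(d j).leibniz_pow, hd, smul_zero, smul_zero]
  have h3 := congrArg (d j) hv
  rw [(d j).leibniz, hdv, hder, hder] at h3
  simp only [smul_eq_mul, mul_zero, add_zero] at h3
  have h4 : (p ^ 2 * FM) * derivative (q ^ 2) = q ^ 2 * derivative (p ^ 2 * FM) := by
    apply hinj
    rw [map_mul (aeval (x j)) (p ^ 2 * FM), map_mul (aeval (x j)) (q ^ 2), ← h3, ← hv]
    ring
  have hcz : CharZero (Mi S x y j) := inferInstance
  have h5 := deg_eq (mul_ne_zero (pow_ne_zero 2 hp0) hFM0) (pow_ne_zero 2 hq0) h4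
  rw [natDegree_mul (pow_ne_zero 2 hp0) hFM0, natDegree_pow, natDegree_pow] at h5
  have h6 : FM.natDegree = F.natDegree := by rw [← hFM, natDegree_map]
  rw [h6] at h5
  obtain ⟨c, hc⟩ := N.odd
  omega

/-- **The classes which are odd in two points are trivial.** -/
theorem Net.biodd (i j : Fin r) (hij : i ≠ j) {U V : K[X]} (hr : Red F U V)
    (h1 : U.map (σ i) = U) (h2 : V.map (σ i) = -V) (h3 : V.map (σ j) = -V) : U = 1 ∧ V = 0 := by
  have hU := N.dU i j hij hr h1 h2
  have hV := N.dV hr j hU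
  have hV0 : V = 0 := by
    ext n
    rw [coeff_zero]
    apply N.odd_const j
    · rw [← coeff_map, h3, coeff_neg]
    · rw [← coeff_dc, hV, coeff_zero]
  refine ⟨?_, hV0⟩
  have h4 : U ∣ F := by
    have := hr.dvd
    rwa [hV0, pow_two, mul_zero, sub_zero] at this
  have h5 : IsUnit U := by
    rcases N.irr.dvd_iff.1 h4 with h9 | h9
    · exact h9
    · exfalso
      have h10 := natDegree_eq_of_degree_eq (degree_eq_degree_of_associated h9)
      have := hr.small
      omega
  exact hr.monic.isUnit_iff.1 h5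

end

end Q45.RG
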