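import Mathlib

/-!
# Derivations and discrete valuations in residue characteristic zero
-/

set_option autoImplicit false
set_option maxHeartbeats 1000000

open Polynomial WithZero

namespace Q45.RG

section

variable {L : Type} [Field L] (D : Derivation ℤ L L)

/-- the derivation of the coefficients -/
noncomputable def dc : Derivation ℤ L[X] L[X] :=
  letI : Differential L := ⟨D⟩
  Differential.mapCoeffs

theorem coeff_dc (p : L[X]) (i : ℕ) : (dc D p).coeff i = D (p.coeff i) := rfl

theorem dc_X : dc D X = 0 := by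
  ext i
  rw [coeff_dc, coeff_zero, coeff_X]
  split_ifs <;> simp

theorem dc_C (c : L) : dc D (C c) = C (D c) := by
  ext i
  rw [coeff_dc, coeff_C, coeff_C]
  split_ifs <;> simp

theorem eval_dc (x : L) (p : L[X]) :
    D (p.eval x) = (dc D p).eval x + p.derivative.eval x * D x := by
  let _ : Differential L := ⟨D⟩
  exact Differential.deriv_aeval_eq (A := L) (R := L) x p

theorem degree_dc_lt {p : L[X]} (hp : p.Monic) :
    (dc D p).degree < p.degree := by
  rw [degree_eq_natDegree hp.ne_zero, degree_lt_iff_coeff_zero]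
  intro m hm
  rw [coeff_dc]
  rcases hm.eq_or_lt with h1 | h1
  · rw [← h1, hp.coeff_natDegree]
    exact D.map_one_eq_zero
  · rw [coeff_eq_zero_of_natDegree_lt h1, map_zero]

theorem degree_dc_le (p : L[X]) : (dc D p).degree ≤ p.degree := by
  rcases eq_or_ne p 0 with rfl | hp
  · rw [map_zero]
  · rw [degree_eq_natDegree hp, degree_le_iff_coeff_zero]
    intro m hm
    rw [coeff_dc, coeff_eq_zero_of_natDegree_lt (by exact_mod_cast hm), map_zero]

end

section

variable {L : Type} [Field L] (D : Derivation ℤ L L) (v : Valuation L ℤᵐ⁰)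

theorem val_eval_le (p : L[X]) (hp : ∀ n, v (p.coeff n) ≤ 1) {x : L} (hx : v x ≤ 1) :
    v (p.eval x) ≤ 1 := by
  rw [eval_eq_sum_range]
  refine v.map_sum_le fun i _ => ?_
  rw [map_mul, map_pow]
  exact mul_le_one' (hp i) (pow_le_one' hx i)

theorem lt_one_iff (x : L) : v x < 1 ↔ v x ≤ exp (-1 : ℤ) := by
  rcases eq_or_ne (v x) 0 with h | h
  · rw [h]
    exact ⟨fun _ => zero_le, fun _ => zero_lt_one⟩
  · rw [← exp_log h, ← exp_zero, exp_lt_exp, exp_le_exp]
    omega

theorem add_le {x y : L} {g : ℤᵐ⁰} (hx : v x ≤ g) (hy : v y ≤ g) : v (x + y) ≤ g :=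
  v.map_add_le hx hy

theorem sub_le {x y : L} {g : ℤᵐ⁰} (hx : v x ≤ g) (hy : v y ≤ g) : v (x - y) ≤ g :=
  v.map_sub_le hx hy

/-- **A derivation of a tamely ramified extension.** -/
theorem bound (hnat : ∀ n : ℕ, n ≠ 0 → v (n : L) = 1) {ϖ : L} (hϖ : v ϖ = exp (-1 : ℤ))
    (N : ℕ) (hN : ∀ x, v x ≤ 1 → v (ϖ ^ N * D x) ≤ 1) (S : Subring L)
    (hS : ∀ c ∈ S, v c ≤ 1 ∧ v (D c) ≤ 1)
    (hres : ∀ x, v x ≤ 1 → ∃ h : L[X], (∀ n, h.coeff n ∈ S) ∧ v h.leadingCoeff = 1 ∧
      v (h.eval x) < 1) {π : L} (e : ℕ) (he : 1 ≤ e) (hπ : v π = exp (-(e : ℤ)))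
    (hDπ : v (D π) ≤ 1) (x : L) (hx : v x ≤ 1) : v (D x) ≤ exp ((e : ℤ) - 1) := by
  classical
  have hϖ0 : ϖ ≠ 0 := by
    rintro rfl
    rw [map_zero] at hϖ
    exact exp_ne_zero hϖ.symm
  have hpow : ∀ n : ℕ, v (ϖ ^ n) = exp (-(n : ℤ)) := by
    intro n
    rw [map_pow, hϖ, ← exp_nsmul]
    congr 1
    simp
  have hP : ∃ n : ℕ, ∀ x, v x ≤ 1 → v (ϖ ^ n * D x) ≤ 1 := ⟨N, hN⟩
  set n := Nat.find hP with hn
  have hPn : ∀ x, v x ≤ 1 → v (ϖ ^ n * D x) ≤ 1 := Nat.find_spec hP
  have hne : n ≤ e - 1 := by
    by_contra hcon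
    have hen : e ≤ n := by omega
    have hmin := Nat.find_min hP (m := n - 1) (by rw [← hn]; omega)
    apply hmin
    intro x hx
    -- the derivative of the uniformizer
    have hθϖ : v (ϖ ^ n * D ϖ) ≤ exp (-1 : ℤ) := by
      set u := π / ϖ ^ e with hu
      have hvu : v u = 1 := by
        rw [hu, map_div₀, hπ, hpow, div_self exp_ne_zero]
      have hπu : π = u * ϖ ^ e := by
        rw [hu, div_mul_cancel₀ _ (pow_ne_zero _ hϖ0)]
      have h1 : D π = D u * ϖ ^ e + u * (e * ϖ ^ (e - 1) * D ϖ) := by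
        conv_lhs => rw [hπu]
        rw [D.leibniz, D.leibniz_pow]
        simp only [smul_eq_mul, nsmul_eq_mul]
        ring
      have h3 : u * (e * ϖ ^ (e - 1)) * (ϖ ^ n * D ϖ) = ϖ ^ n * D π - ϖ ^ n * D u * ϖ ^ e := by
        rw [h1]
        ring
      have h4 : v (u * (e * ϖ ^ (e - 1)) * (ϖ ^ n * D ϖ)) ≤ exp (-(e : ℤ)) := by
        rw [h3]
        apply sub_le
        · rw [map_mul, hpow]
          calc exp (-(n : ℤ)) * v (D π) ≤ exp (-(n : ℤ)) * 1 := mul_le_mul_right hDπ _
            _ ≤ exp (-(e : ℤ)) := by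
              rw [mul_one, exp_le_exp]
              omega
        · rw [map_mul, hpow]
          calc v (ϖ ^ n * D u) * exp (-(e : ℤ)) ≤ 1 * exp (-(e : ℤ)) :=
                mul_le_mul_left (hPn u hvu.le) _
            _ = exp (-(e : ℤ)) := one_mul _
      rw [map_mul, map_mul, map_mul, hvu, hnat e (by omega), hpow, one_mul, one_mul] at h4
      have h5 : exp (-(e : ℤ)) = exp (-((e - 1 : ℕ) : ℤ)) * exp (-1 : ℤ) := by
        rw [← exp_add]
        congr 1
        omega
      rw [h5] at h4
      exact (mul_le_mul_iff_right₀ exp_pos).1 h4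
    -- the residue field
    have hlt : v (ϖ ^ n * D x) < 1 := by
      have hQ : ∃ d : ℕ, ∃ h : L[X], h.natDegree = d ∧ (∀ n, h.coeff n ∈ S) ∧
          v h.leadingCoeff = 1 ∧ v (h.eval x) < 1 := by
        obtain ⟨h, h1, h3, h4⟩ := hres x hx
        exact ⟨_, h, rfl, h1, h3, h4⟩
      obtain ⟨h, hd, h1, h3, h4⟩ := Nat.find_spec hQ
      have hd0 : h.natDegree ≠ 0 := by
        intro h0
        rw [eq_C_of_natDegree_eq_zero h0, eval_C] at h4
        rw [leadingCoeff, h0] at h3
        rw [h3] at h4
        exact lt_irrefl _ h4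
      have hder : v (h.derivative.eval x) = 1 := by
        refine le_antisymm (val_eval_le v _ (fun m => ?_) hx) ?_
        · rw [coeff_derivative, map_mul]
          refine mul_le_one' (hS _ (h1 _)).1 ?_
          have := (hnat (m + 1) (by omega)).le
          rwa [Nat.cast_add, Nat.cast_one] at this
        · by_contra hcon2
          rw [not_le] at hcon2
          have hcz : ((h.natDegree : ℕ) : L) ≠ 0 := by
            intro h0
            have := hnat h.natDegree hd0
            rw [h0, map_zero] at this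
            exact zero_ne_one this
          have hnd : h.derivative.natDegree = h.natDegree - 1 := by
            refine le_antisymm (natDegree_derivative_le h) ?_
            refine le_natDegree_of_ne_zero ?_
            rw [coeff_derivative, Nat.sub_add_cancel (by omega)]
            refine mul_ne_zero ?_ ?_
            · rw [coeff_natDegree, leadingCoeff_ne_zero]
              rintro rfl
              simp at hd0
            · have : (((h.natDegree - 1 : ℕ) : L) + 1) = (h.natDegree : L) := by
                have h9 : ((h.natDegree - 1 + 1 : ℕ) : L) = (h.natDegree : L) := by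
                  rw [Nat.sub_add_cancel (by omega)]
                rw [← h9]
                push_cast
                rfl
              rw [this]
              exact hcz
          refine Nat.find_min hQ (m := h.natDegree - 1) (by omega) ⟨h.derivative, hnd, ?_, ?_, hcon2⟩
          · intro m
            rw [coeff_derivative]
            refine S.mul_mem (h1 _) ?_
            have := natCast_mem S (m + 1)
            rwa [Nat.cast_add, Nat.cast_one] at this
          · rw [leadingCoeff, hnd, coeff_derivative, Nat.sub_add_cancel (by omega), map_mul,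
              coeff_natDegree, h3, one_mul]
            have h9 : (((h.natDegree - 1 : ℕ) : L) + 1) = ((h.natDegree : ℕ) : L) := by
              have h9 : ((h.natDegree - 1 + 1 : ℕ) : L) = (h.natDegree : L) := by
                rw [Nat.sub_add_cancel (by omega)]
              rw [← h9]
              push_cast
              rfl
            rw [h9]
            exact hnat _ hd0
      have h5 : h.derivative.eval x * (ϖ ^ n * D x) =
          ϖ ^ n * D (h.eval x) - ϖ ^ n * (dc D h).eval x := by
        rw [eval_dc]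
        ring
      have h6 : v (ϖ ^ n * (dc D h).eval x) ≤ exp (-1 : ℤ) := by
        rw [map_mul, hpow]
        have h7 : v ((dc D h).eval x) ≤ 1 :=
          val_eval_le v _ (fun m => by rw [coeff_dc]; exact (hS _ (h1 m)).2) hx
        calc exp (-(n : ℤ)) * v ((dc D h).eval x) ≤ exp (-(n : ℤ)) * 1 := mul_le_mul_right h7 _
          _ ≤ exp (-1 : ℤ) := by
            rw [mul_one, exp_le_exp]
            omega
      have h8 : v (ϖ ^ n * D (h.eval x)) ≤ exp (-1 : ℤ) := by
        set z := h.eval x / ϖ with hz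
        have hvz : v z ≤ 1 := by
          rw [hz, map_div₀, hϖ]
          rw [lt_one_iff] at h4
          exact (div_le_one₀ exp_pos).2 h4
        have hxz : h.eval x = ϖ * z := by
          rw [hz, mul_div_cancel₀ _ hϖ0]
        have h9 : ϖ ^ n * D (h.eval x) = ϖ ^ n * D ϖ * z + ϖ * (ϖ ^ n * D z) := by
          rw [hxz, D.leibniz]
          simp only [smul_eq_mul]
          ring
        rw [h9]
        apply add_le
        · rw [map_mul]
          calc v (ϖ ^ n * D ϖ) * v z ≤ exp (-1 : ℤ) * 1 := mul_le_mul' hθϖ hvz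
            _ = exp (-1 : ℤ) := mul_one _
        · rw [map_mul, hϖ]
          calc exp (-1 : ℤ) * v (ϖ ^ n * D z) ≤ exp (-1 : ℤ) * 1 := mul_le_mul_right (hPn z hvz) _
            _ = exp (-1 : ℤ) := mul_one _
      have h10 : v (h.derivative.eval x * (ϖ ^ n * D x)) ≤ exp (-1 : ℤ) := by
        rw [h5]
        exact sub_le v h8 h6
      rw [map_mul, hder, one_mul] at h10
      rw [lt_one_iff]
      exact h10
    rw [lt_one_iff, map_mul, hpow] at hlt
    rw [map_mul, hpow]
    have h5 : exp (-(n : ℤ)) = exp (-1 : ℤ) * exp (-((n - 1 : ℕ) : ℤ)) := by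
      rw [← exp_add]
      congr 1
      omega
    rw [h5, mul_assoc] at hlt
    have h6 : exp (-1 : ℤ) * (exp (-((n - 1 : ℕ) : ℤ)) * v (D x)) ≤ exp (-1 : ℤ) * 1 := by
      rwa [mul_one]
    exact (mul_le_mul_iff_right₀ exp_pos).1 h6
  have h1 := hPn x hx
  rw [map_mul, hpow] at h1
  have h3 : v (D x) = exp (n : ℤ) * (exp (-(n : ℤ)) * v (D x)) := by
    rw [← mul_assoc, ← exp_add, add_neg_cancel, exp_zero, one_mul]
  rw [h3]
  calc exp (n : ℤ) * (exp (-(n : ℤ)) * v (D x)) ≤ exp (n : ℤ) * 1 := mul_le_mul_right h1 _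
    _ ≤ exp ((e : ℤ) - 1) := by
      rw [mul_one, exp_le_exp]
      omega

end

end Q45.RG
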