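import Pool.Agent.Q45.RG.Map
import Pool.Agent.TH958.FP.RankAbs

/-!
# The class groups of the curves in field extensions
-/

set_option autoImplicit false
set_option maxHeartbeats 1000000

open Polynomial Pool.Agent.TH943.HJ

namespace Q45.RG

section

variable {K₀ K : Type} [Field K₀] [Field K] {F₀ : K₀[X]} {F : K[X]} (φ : K₀ →+* K)
  (h : F₀.map φ = F) (h2 : (2 : K) ≠ 0) (hodd : Odd F.natDegree) (hirr : Irreducible F)

theorem cM_congr [IsDedekindDomain (CR F)] {U V U' V' : K[X]} (hs : Semi F U V)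
    (hs' : Semi F U' V') (e : U = U') (e' : V = V') : cM hs = cM hs' := by
  subst e e'
  rfl

include h h2 hodd hirr in
theorem base_ok : (2 : K₀) ≠ 0 ∧ Odd F₀.natDegree ∧ Irreducible F₀ := by
  refine ⟨fun h0 => h2 ?_, ?_, ?_⟩
  · have := congrArg φ h0
    rwa [map_ofNat, map_zero] at this
  · rw [← h, natDegree_map] at hodd
    exact hodd
  · rw [← h] at hirr
    have h3 : ¬ IsUnit F₀ := fun hu => hirr.not_isUnit (hu.map (mapRingHom φ))
    refine ⟨h3, fun a b hab => ?_⟩
    have h4 := hirr.isUnit_or_isUnit (a := a.map φ) (b := b.map φ)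
      (by rw [hab, Polynomial.map_mul])
    have h5 : ∀ p : K₀[X], IsUnit (p.map φ) → IsUnit p := by
      intro p hp
      rw [isUnit_iff_degree_eq_zero, degree_map] at hp
      exact isUnit_iff_degree_eq_zero.2 hp
    exact h4.imp (h5 a) (h5 b)

include h2 hodd hirr in
/-- the map of the class groups is injective -/
theorem clMap_eq_one [IsDedekindDomain (CR F₀)] [IsDedekindDomain (CR F)]
    (c : ClassGroup (CR F₀)) (hc : clMap φ h c = 1) : c = 1 := by
  obtain ⟨b1, b2, b3⟩ := base_ok φ h h2 hodd hirr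
  obtain ⟨U, V, hr, rfl⟩ := exists_red b1 b2 b3.squarefree c
  rw [clMap_cM] at hc
  obtain ⟨h3, h4⟩ := red_eq_one h2 hodd hirr.squarefree (hr.map' φ h) hc
  have h5 : U = 1 := by
    apply Polynomial.map_injective φ φ.injective
    rw [h3, Polynomial.map_one]
  subst h5
  exact cM_one _

/-- a divisor with coefficients in the smaller field -/
theorem desc [IsDedekindDomain (CR F₀)] [IsDedekindDomain (CR F)] {U V : K[X]} (hs : Semi F U V)
    (hU : ∀ n, U.coeff n ∈ Set.range φ) (hV : ∀ n, V.coeff n ∈ Set.range φ) :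
    ∃ c, clMap φ h c = cM hs := by
  have hl : ∀ p : K[X], (∀ n, p.coeff n ∈ Set.range φ) → ∃ q : K₀[X], q.map φ = p := by
    intro p hp
    have h1 : p ∈ lifts φ := by
      rw [lifts_iff_coeff_lifts]
      exact hp
    exact (mem_lifts p).1 h1
  obtain ⟨U₀, hU₀⟩ := hl U hU
  obtain ⟨V₀, hV₀⟩ := hl V hV
  have hs₀ : Semi F₀ U₀ V₀ := by
    refine ⟨monic_of_injective φ.injective (by rw [hU₀]; exact hs.monic), ?_⟩
    rw [← Polynomial.map_dvd_map' φ, Polynomial.map_sub, Polynomial.map_pow, h, hU₀, hV₀]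
    exact hs.dvd
  refine ⟨cM hs₀, ?_⟩
  rw [clMap_cM]
  exact cM_congr _ _ hU₀ hV₀

end

end Q45.RG
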