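import Pool.Agent.Q45.RG.Place

/-!
# The differentials of the first kind at the points of the curve
-/

set_option autoImplicit false
set_option maxHeartbeats 1000000

open Polynomial WithZero

namespace Q45.RG

section

variable {L : Type} [Field L] (D : Derivation ℤ L L) (v : Valuation L ℤᵐ⁰)

/-- the value of a monic polynomial at a point outside the integers -/
theorem val_monic {F : L[X]} (hF : F.Monic) (hc : ∀ n, v (F.coeff n) ≤ 1) {a : L} (ha : 1 < v a) :
    v (F.eval a) = v a ^ F.natDegree := by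
  have h1 : F.eval a = F.eraseLead.eval a + a ^ F.natDegree := by
    conv_lhs => rw [← F.eraseLead_add_C_mul_X_pow, hF.leadingCoeff, C_1, one_mul]
    rw [eval_add, eval_pow, eval_X]
  rcases eq_or_ne F.natDegree 0 with hn | hn
  · rw [hF.natDegree_eq_zero.1 hn]
    simp
  · have h2 : v (F.eraseLead.eval a) < v (a ^ F.natDegree) := by
      rw [eval_eq_sum_range' (n := F.natDegree) (by
        have := F.eraseLead_natDegree_le
        omega)]
      refine v.map_sum_lt ?_ fun i hi => ?_
      · rw [map_pow]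
        exact pow_ne_zero _ (lt_trans zero_lt_one ha).ne'
      · rw [Finset.mem_range] at hi
        rw [map_mul, map_pow, map_pow]
        have h3 : v (F.eraseLead.coeff i) ≤ 1 := by
          rw [eraseLead_coeff]
          split_ifs
          · rw [map_zero]; exact zero_le
          · exact hc i
        calc v (F.eraseLead.coeff i) * v a ^ i ≤ 1 * v a ^ i := mul_le_mul_left h3 _
          _ = v a ^ i := one_mul _
          _ < v a ^ F.natDegree := pow_lt_pow_right₀ ha hi
    rw [h1, Valuation.map_add_eq_of_lt_right v h2, map_pow]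

theorem val_der (hnat : ∀ n : ℕ, n ≠ 0 → v (n : L) = 1) {e : ℤ}
    (hB : ∀ x, v x ≤ 1 → v (D x) ≤ exp (e - 1)) {ϖ : L} (hϖ : v ϖ = exp (-1 : ℤ)) {x : L} {m : ℕ}
    (hx : v x = exp (m : ℤ)) (hm : m ≠ 0) : v (D x) ≤ exp ((m : ℤ) + e) := by
  have hpow : ∀ n : ℕ, v (ϖ ^ n) = exp (-(n : ℤ)) := by
    intro n
    rw [map_pow, hϖ, ← exp_nsmul]
    congr 1
    simp
  have h1 : v (x * ϖ ^ m) = 1 := by
    rw [map_mul, hx, hpow, ← exp_add, add_neg_cancel, exp_zero]
  have h2 : D x * ϖ ^ m = D (x * ϖ ^ m) - x * (m * ϖ ^ (m - 1) * D ϖ) := by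
    rw [D.leibniz, D.leibniz_pow]
    simp only [smul_eq_mul, nsmul_eq_mul]
    ring
  have hϖ1 : v ϖ ≤ 1 := by
    rw [hϖ, ← exp_zero, exp_le_exp]
    norm_num
  have h3 : v (D x * ϖ ^ m) ≤ exp e := by
    rw [h2]
    apply sub_le
    · refine (hB _ h1.le).trans ?_
      rw [exp_le_exp]
      omega
    · rw [map_mul, map_mul, map_mul, hx, hnat m hm, hpow, one_mul]
      calc exp (m : ℤ) * (exp (-((m - 1 : ℕ) : ℤ)) * v (D ϖ)) ≤
          exp (m : ℤ) * (exp (-((m - 1 : ℕ) : ℤ)) * exp (e - 1)) :=
            mul_le_mul_right (mul_le_mul_right (hB _ hϖ1) _) _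
        _ = exp e := by
          rw [← exp_add, ← exp_add]
          congr 1
          omega
  rw [map_mul, hpow] at h3
  have h4 : exp e = exp ((m : ℤ) + e) * exp (-(m : ℤ)) := by
    rw [← exp_add]
    congr 1
    ring
  rw [h4] at h3
  exact (mul_le_mul_iff_left₀ exp_pos).1 h3

/-- **The differentials of the first kind have no poles.** -/
theorem est (hnat : ∀ n : ℕ, n ≠ 0 → v (n : L) = 1) {e : ℤ}
    (hB : ∀ x, v x ≤ 1 → v (D x) ≤ exp (e - 1)) {ϖ : L} (hϖ : v ϖ = exp (-1 : ℤ))
    {F : L[X]} (hF : F.Monic) (hc : ∀ n, v (F.coeff n) ≤ 1)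
    (hDF : dc D F = 0) {A B : L[X]} (hA : ∀ n, v (A.coeff n) ≤ 1) (hBc : ∀ n, v (B.coeff n) ≤ 1)
    (hAB : A * F + B * F.derivative = 1) {a b : L} (hab : b ^ 2 = F.eval a) (hb : b ≠ 0) {k : ℕ}
    (hk : 2 * (k + 1) < F.natDegree) : v (a ^ k * D a / b) ≤ exp (e - 1) := by
  have hvb0 : v b ≠ 0 := (v.ne_zero_iff).2 hb
  rcases le_or_gt (v a) 1 with ha | ha
  · have hvb : v b ≤ 1 := by
      have h1 : v b ^ 2 ≤ 1 := by
        rw [← map_pow, hab]
        exact val_eval_le v F hc ha
      by_contra hcon
      rw [not_le] at hcon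
      exact absurd h1 (not_le.2 (one_lt_pow₀ hcon two_ne_zero))
    rcases hvb.eq_or_lt with h1 | h1
    · rw [map_div₀, h1, div_one, map_mul, map_pow]
      calc v a ^ k * v (D a) ≤ 1 * exp (e - 1) := mul_le_mul' (pow_le_one' ha k) (hB a ha)
        _ = exp (e - 1) := one_mul _
    · have h2 : (2 * b) * D b = F.derivative.eval a * D a := by
        have h3 := eval_dc D a F
        rw [hDF, eval_zero, zero_add, ← hab, D.leibniz_pow] at h3
        simp only [smul_eq_mul, nsmul_eq_mul] at h3
        rw [← h3]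
        push_cast
        ring
      have hF' : v (F.derivative.eval a) = 1 := by
        have h3 := congrArg (eval a) hAB
        rw [eval_add, eval_mul, eval_mul, eval_one, ← hab] at h3
        have hle : ∀ p : L[X], (∀ n, v (p.coeff n) ≤ 1) → v (p.eval a) ≤ 1 := fun p hp =>
          val_eval_le v p hp ha
        have hdc : v (F.derivative.eval a) ≤ 1 := by
          apply hle
          intro n
          rw [coeff_derivative, map_mul]
          refine mul_le_one' (hc _) ?_
          have := (hnat (n + 1) (by omega)).le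
          rwa [Nat.cast_add, Nat.cast_one] at this
        refine le_antisymm hdc ?_
        by_contra hcon
        rw [not_le] at hcon
        have h4 : v (A.eval a * b ^ 2 + B.eval a * F.derivative.eval a) < 1 := by
          refine v.map_add_lt ?_ ?_
          · rw [map_mul, map_pow]
            exact lt_of_le_of_lt (mul_le_of_le_one_left' (hle A hA)) (pow_lt_one₀ zero_le h1 two_ne_zero)
          · rw [map_mul]
            exact lt_of_le_of_lt (mul_le_of_le_one_left' (hle B hBc)) hcon
        rw [h3, map_one] at h4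
        exact lt_irrefl _ h4
      have hF0 : F.derivative.eval a ≠ 0 := by
        intro h0
        rw [h0, map_zero] at hF'
        exact zero_ne_one hF'
      have h3 : a ^ k * D a / b = a ^ k * (2 * D b) / F.derivative.eval a := by
        rw [div_eq_div_iff hb hF0]
        linear_combination (-a ^ k) * h2
      have h22 : v (2 : L) = 1 := by
        have := hnat 2 two_ne_zero
        exact_mod_cast this
      rw [h3, map_div₀, hF', div_one, map_mul, map_mul, map_pow, h22, one_mul]
      calc v a ^ k * v (D b) ≤ 1 * exp (e - 1) := mul_le_mul' (pow_le_one' ha k) (hB b hvb)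
        _ = exp (e - 1) := one_mul _
  · have hva0 : v a ≠ 0 := (lt_trans zero_lt_one ha).ne'
    obtain ⟨t, ht⟩ : ∃ t : ℤ, v a = exp t := ⟨_, (exp_log hva0).symm⟩
    have ht0 : 0 < t := by
      rw [ht, ← exp_zero, exp_lt_exp] at ha
      exact ha
    obtain ⟨m, rfl⟩ := Int.eq_ofNat_of_zero_le ht0.le
    obtain ⟨s, hs⟩ : ∃ s : ℤ, v b = exp s := ⟨_, (exp_log hvb0).symm⟩
    have h1 := val_monic v hF hc ha
    rw [← hab, map_pow, hs, ht, ← exp_nsmul, ← exp_nsmul, exp_inj] at h1
    have h2 := val_der D v hnat hB hϖ ht (by omega)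
    rw [map_div₀, map_mul, map_pow, ht, hs, ← exp_nsmul]
    calc exp (k • (m : ℤ)) * v (D a) / exp s ≤ exp (k • (m : ℤ)) * exp ((m : ℤ) + e) / exp s :=
          div_le_div_of_nonneg_right (mul_le_mul_right h2 _) zero_le
      _ ≤ exp (e - 1) := by
        rw [← exp_add, ← exp_sub, exp_le_exp]
        simp only [nsmul_eq_mul] at h1 ⊢
        push_cast at h1
        have h3 : 2 * ((k : ℤ) * m + (m + e) - s) = (2 * ((k : ℤ) + 1) - F.natDegree) * m + 2 * e := by
          linear_combination -h1
        have h4 : (2 * ((k : ℤ) + 1) - F.natDegree) * m ≤ -1 * m := by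
          refine mul_le_mul_of_nonneg_right ?_ (by positivity)
          have : (2 * (k + 1) : ℤ) < F.natDegree := by exact_mod_cast hk
          linarith
        have h5 : (0 : ℤ) < m := ht0
        omega

end

end Q45.RG
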