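import Pool.Agent.TH943.HJ.Cls

/-!
# Reduced divisors on the curve `y ^ 2 = F(x)`
-/

set_option autoImplicit false
set_option maxHeartbeats 2000000

open Polynomial Pool.Agent.TH943.HJ

namespace Q45.RG

section

variable {K : Type} [Field K] {F : K[X]}

theorem ev_aux {U V : K[X]} (h : U ∣ F - V ^ 2) :
    (X ^ 2 - C F : K[X][X]).eval₂ (AdjoinRoot.mk U) (AdjoinRoot.mk U V) = 0 := by
  rw [eval₂_sub, eval₂_pow, eval₂_X, eval₂_C, ← map_pow, ← map_sub, AdjoinRoot.mk_eq_zero]
  rw [← neg_sub]
  exact (dvd_neg).2 h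

/-- membership in the ideal of a divisor -/
theorem mem_pid {U V : K[X]} (h : U ∣ F - V ^ 2) (p q : K[X]) :
    (el p q : CR F) ∈ pid F U V ↔ U ∣ p + q * V := by
  constructor
  · intro hm
    let ψ : CR F →+* AdjoinRoot U :=
      AdjoinRoot.lift (AdjoinRoot.mk U) (AdjoinRoot.mk U V) (ev_aux h)
    have ψp : ∀ q : K[X], ψ (pp q) = AdjoinRoot.mk U q := fun q =>
      AdjoinRoot.lift_of (i := AdjoinRoot.mk U) (h := ev_aux h) (x := q)
    have ψy : ψ (yy F) = AdjoinRoot.mk U V :=
      AdjoinRoot.lift_root (i := AdjoinRoot.mk U) (ev_aux h)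
    have hle : pid F U V ≤ RingHom.ker ψ := by
      unfold pid
      rw [Ideal.span_le]
      rintro z (rfl | rfl)
      · rw [SetLike.mem_coe, RingHom.mem_ker, ψp, AdjoinRoot.mk_self]
      · rw [SetLike.mem_coe, RingHom.mem_ker, map_sub, ψp, ψy, sub_self]
    have h1 := hle hm
    rw [RingHom.mem_ker, el, map_add, map_mul, ψp, ψp, ψy, ← map_mul, ← map_add,
      AdjoinRoot.mk_eq_zero] at h1
    exact h1
  · rintro ⟨s, hs⟩
    have e : (el p q : CR F) = pp q * (yy F - pp V) + pp s * pp U := by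
      have h1 : (pp s * pp U : CR F) = pp (p + q * V) := by
        rw [hs, map_mul, mul_comm]
      rw [h1, el, map_add, map_mul]
      ring
    rw [e]
    exact Ideal.add_mem _ (Ideal.mul_mem_left _ _ (yy_mem_pid _ _))
      (Ideal.mul_mem_left _ _ (pp_mem_pid _ _))

theorem pid_one (V : K[X]) : pid F 1 V = ⊤ := by
  rw [Ideal.eq_top_iff_one]
  have := pp_mem_pid (F := F) 1 V
  rwa [map_one] at this

theorem pid_congr {U V V' : K[X]} (h : U ∣ V - V') : pid F U V = pid F U V' := by
  have key : ∀ V V' : K[X], U ∣ V - V' → pid F U V ≤ pid F U V' := by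
    intro V V' h
    conv_lhs => unfold pid
    rw [Ideal.span_le]
    rintro z (rfl | rfl)
    · exact pp_mem_pid _ _
    · obtain ⟨s, hs⟩ := h
      have e : yy F - pp V = (yy F - pp V') - pp s * pp U := by
        have h1 : (pp s * pp U : CR F) = pp (V - V') := by rw [hs, map_mul, mul_comm]
        rw [h1, map_sub]
        ring
      rw [SetLike.mem_coe, e]
      exact Ideal.sub_mem _ (yy_mem_pid _ _) (Ideal.mul_mem_left _ _ (pp_mem_pid _ _))
  refine le_antisymm (key _ _ h) (key _ _ ?_)
  rw [← neg_sub]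
  exact (dvd_neg).2 h

theorem span_yy_ne {V : K[X]} : (yy F - pp V) ≠ 0 := by
  intro h
  have h1 : (el (-V) 1 : CR F) = 0 := by
    rw [el, map_neg, map_one]
    linear_combination h
  exact one_ne_zero (el_eq_zero h1).2

/-- the unit ideal from three coprime polynomials -/
theorem cop3 (hsq : Squarefree F) {U V W : K[X]} (h : U * W = F - V ^ 2) :
    ∃ a b c : K[X], a * U + b * W + c * V = 1 := by
  have h1 : Ideal.span ({U, W, V} : Set K[X]) = ⊤ := by
    obtain ⟨d, hd⟩ := IsPrincipalIdealRing.principal (Ideal.span ({U, W, V} : Set K[X]))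
    rw [Ideal.submodule_span_eq] at hd
    rw [hd, Ideal.span_singleton_eq_top]
    have hU : d ∣ U := by
      rw [← Ideal.mem_span_singleton, ← hd]
      exact Ideal.subset_span (by simp)
    have hW : d ∣ W := by
      rw [← Ideal.mem_span_singleton, ← hd]
      exact Ideal.subset_span (by simp)
    have hV : d ∣ V := by
      rw [← Ideal.mem_span_singleton, ← hd]
      exact Ideal.subset_span (by simp)
    apply hsq
    have e : F = U * W + V * V := by rw [h]; ring
    rw [e]
    exact dvd_add (mul_dvd_mul hU hW) (mul_dvd_mul hV hV)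
  rw [Ideal.eq_top_iff_one, Ideal.mem_span_insert] at h1
  obtain ⟨a, z, hz, e⟩ := h1
  rw [Ideal.mem_span_pair] at hz
  obtain ⟨b, c, rfl⟩ := hz
  exact ⟨a, b, c, by rw [e]; ring⟩

theorem half_two (h2 : (2 : K) ≠ 0) : (C (2⁻¹ : K) : K[X]) * 2 = 1 := by
  have : (2 : K[X]) = C 2 := by rw [map_ofNat]
  rw [this, ← C_mul, inv_mul_cancel₀ h2, C_1]

/-- the product of the two divisors in the divisor of `y - V` -/
theorem pid_mul' (h2 : (2 : K) ≠ 0) (hsq : Squarefree F) {U V W : K[X]} (h : U * W = F - V ^ 2) :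
    pid F U V * pid F W V = Ideal.span {yy F - pp V} := by
  have hUW : (pp U * pp W : CR F) = (yy F + pp V) * (yy F - pp V) := by
    rw [← map_mul, h, map_sub, map_pow, ← yy_sq]
    ring
  unfold pid
  rw [Ideal.span_pair_mul_span_pair]
  apply le_antisymm
  · rw [Ideal.span_le]
    rintro z (rfl | rfl | rfl | rfl)
    · rw [SetLike.mem_coe, hUW]
      exact Ideal.mul_mem_left _ _ (Ideal.mem_span_singleton_self _)
    · exact Ideal.mul_mem_left _ _ (Ideal.mem_span_singleton_self _)
    · exact Ideal.mul_mem_right _ _ (Ideal.mem_span_singleton_self _)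
    · exact Ideal.mul_mem_right _ _ (Ideal.mem_span_singleton_self _)
  · rw [Ideal.span_singleton_le_iff_mem]
    obtain ⟨a, b, c, hab⟩ := cop3 hsq h
    have h1 : yy F - pp V = pp a * (pp U * (yy F - pp V)) + pp b * ((yy F - pp V) * pp W) +
        pp c * pp (C (2⁻¹ : K)) * (pp U * pp W) -
        pp c * pp (C (2⁻¹ : K)) * ((yy F - pp V) * (yy F - pp V)) := by
      rw [hUW]
      have h3 : (yy F - pp V : CR F) = pp (a * U + b * W + c * V * (C (2⁻¹ : K) * 2)) *
          (yy F - pp V) := by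
        rw [half_two h2, mul_one, hab, map_one, one_mul]
      conv_lhs => rw [h3]
      simp only [map_mul, map_add, map_ofNat]
      ring
    refine Set.mem_of_eq_of_mem h1 ?_
    rw [SetLike.mem_coe]
    apply Ideal.sub_mem
    · apply Ideal.add_mem
      · apply Ideal.add_mem
        · exact Ideal.mul_mem_left _ _ (Ideal.subset_span (by simp))
        · exact Ideal.mul_mem_left _ _ (Ideal.subset_span (by simp))
      · exact Ideal.mul_mem_left _ _ (Ideal.subset_span (by simp))
    · exact Ideal.mul_mem_left _ _ (Ideal.subset_span (by simp))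

/-- the product with the conjugate -/
theorem pid_cj (h2 : (2 : K) ≠ 0) (hsq : Squarefree F) {U V : K[X]} (h : U ∣ F - V ^ 2) :
    pid F U V * pid F U (-V) = Ideal.span {pp U} := by
  obtain ⟨W, hW⟩ := h
  have hUW : (pp U * pp W : CR F) = (yy F + pp V) * (yy F - pp V) := by
    rw [← map_mul, ← hW, map_sub, map_pow, ← yy_sq]
    ring
  unfold pid
  rw [Ideal.span_pair_mul_span_pair]
  apply le_antisymm
  · rw [Ideal.span_le]
    rintro z (rfl | rfl | rfl | rfl)
    · exact Ideal.mul_mem_left _ _ (Ideal.mem_span_singleton_self _)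
    · exact Ideal.mul_mem_right _ _ (Ideal.mem_span_singleton_self _)
    · exact Ideal.mul_mem_left _ _ (Ideal.mem_span_singleton_self _)
    · have e : (yy F - pp V) * (yy F - pp (-V)) = pp U * pp W := by
        rw [hUW, map_neg]
        ring
      rw [SetLike.mem_coe, e]
      exact Ideal.mul_mem_right _ _ (Ideal.mem_span_singleton_self _)
  · rw [Ideal.span_singleton_le_iff_mem]
    obtain ⟨a, b, c, hab⟩ := cop3 hsq hW.symm
    have h1 : (pp U : CR F) = pp a * (pp U * pp U) + pp b * ((yy F - pp V) * (yy F - pp (-V))) +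
        pp c * pp (C (2⁻¹ : K)) * (pp U * (yy F - pp (-V))) -
        pp c * pp (C (2⁻¹ : K)) * ((yy F - pp V) * pp U) := by
      have e : (yy F - pp V) * (yy F - pp (-V)) = pp U * pp W := by
        rw [hUW, map_neg]
        ring
      rw [e]
      have h3 : (pp U : CR F) = pp (a * U + b * W + c * V * (C (2⁻¹ : K) * 2)) * pp U := by
        rw [half_two h2, mul_one, hab, map_one, one_mul]
      conv_lhs => rw [h3]
      simp only [map_mul, map_add, map_neg, map_ofNat]
      ring
    refine Set.mem_of_eq_of_mem h1 ?_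
    rw [SetLike.mem_coe]
    apply Ideal.sub_mem
    · apply Ideal.add_mem
      · apply Ideal.add_mem
        · exact Ideal.mul_mem_left _ _ (Ideal.subset_span (by simp))
        · exact Ideal.mul_mem_left _ _ (Ideal.subset_span (by simp))
      · exact Ideal.mul_mem_left _ _ (Ideal.subset_span (by simp))
    · exact Ideal.mul_mem_left _ _ (Ideal.subset_span (by simp))

/-- every nonzero ideal is a polynomial times the ideal of a divisor -/
theorem hermite (hodd : Odd F.natDegree) (I : Ideal (CR F)) (hI : I ≠ ⊥) :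
    ∃ P U V : K[X], P ≠ 0 ∧ U.Monic ∧
    U ∣ F - V ^ 2 ∧ I = Ideal.span {(pp P : CR F)} * pid F U V := by
  classical
  -- the ideal of the coefficients of `y`
  let J : Ideal K[X] :=
    { carrier := {q | ∃ p, (el p q : CR F) ∈ I}
      zero_mem' := ⟨0, by
        have e : (el 0 0 : CR F) = 0 := by rw [el_left, map_zero]
        rw [e]
        exact I.zero_mem⟩
      add_mem' := by
        rintro a b ⟨p, hp⟩ ⟨p', hp'⟩
        refine ⟨p + p', ?_⟩
        have e : (el (p + p') (a + b) : CR F) = el p a + el p' b := by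
          unfold el
          rw [map_add, map_add]
          ring
        rw [e]
        exact I.add_mem hp hp'
      smul_mem' := by
        rintro c a ⟨p, hp⟩
        refine ⟨c * p, ?_⟩
        have e : (el (c * p) (c • a) : CR F) = pp c * el p a := by
          unfold el
          rw [smul_eq_mul, map_mul, map_mul]
          ring
        rw [e]
        exact I.mul_mem_left _ hp }
  obtain ⟨P, hP⟩ := IsPrincipalIdealRing.principal J
  rw [Ideal.submodule_span_eq] at hP
  have hJdvd : ∀ q, (∃ p, (el p q : CR F) ∈ I) ↔ P ∣ q := fun q => by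
    rw [← Ideal.mem_span_singleton, ← hP]
    rfl
  have hq : ∀ p q, (el p q : CR F) ∈ I → P ∣ q := fun p q h => (hJdvd q).1 ⟨p, h⟩
  have hp : ∀ p q, (el p q : CR F) ∈ I → P ∣ p := by
    intro p q h
    apply hq (F * q) p
    have e : (el (F * q) p : CR F) = yy F * el p q := by
      unfold el
      rw [map_mul, ← yy_sq]
      ring
    rw [e]
    exact I.mul_mem_left _ h
  have hP0 : P ≠ 0 := by
    rintro rfl
    apply hI
    rw [eq_bot_iff]
    intro z hz
    obtain ⟨p, q, rfl⟩ := exists_el z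
    have h1 := zero_dvd_iff.1 (hp p q hz)
    have h3 := zero_dvd_iff.1 (hq p q hz)
    rw [h1, h3, el_left, map_zero]
    exact Ideal.zero_mem _
  -- an element with coefficient `P`
  obtain ⟨p₀, hp₀⟩ := (hJdvd P).2 dvd_rfl
  obtain ⟨V', hV'⟩ := hp _ _ hp₀
  obtain ⟨V, hV⟩ : ∃ V, V = -V' := ⟨_, rfl⟩
  have hV1 : (pp P * (yy F - pp V) : CR F) ∈ I := by
    have e : (pp P * (yy F - pp V) : CR F) = el p₀ P := by
      unfold el
      rw [hV', hV, map_mul, map_neg]
      ring
    rw [e]
    exact hp₀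
  -- the polynomials in the ideal
  obtain ⟨U₀, hU₀⟩ := IsPrincipalIdealRing.principal (Ideal.comap ((pp : K[X] →+* CR F)) I)
  rw [Ideal.submodule_span_eq] at hU₀
  have hJ'dvd : ∀ p, (pp p : CR F) ∈ I ↔ U₀ ∣ p := fun p => by
    rw [← Ideal.mem_span_singleton, ← hU₀, Ideal.mem_comap]
  have hU₀m : (pp U₀ : CR F) ∈ I := (hJ'dvd U₀).2 dvd_rfl
  obtain ⟨U₁, hU₁⟩ := hp U₀ 0 (by rwa [el_left])
  have hdvd : U₁ ∣ F - V ^ 2 := by
    have key : (pp (P * (F - V ^ 2)) : CR F) ∈ I := by
      have e : (pp (P * (F - V ^ 2)) : CR F) = (yy F + pp V) * (pp P * (yy F - pp V)) := by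
        simp only [map_mul, map_sub, map_pow]
        rw [← yy_sq]
        ring
      rw [e]
      exact I.mul_mem_left _ hV1
    have h1 := (hJ'dvd _).1 key
    rw [hU₁] at h1
    exact (mul_dvd_mul_iff_left hP0).1 h1
  have hU₀ne : U₀ ≠ 0 := by
    rintro rfl
    obtain ⟨z, hz, hz0⟩ := Submodule.exists_mem_ne_zero_of_ne_bot hI
    obtain ⟨p, q, rfl⟩ := exists_el z
    have h4 : (pp (p ^ 2 - F * q ^ 2) : CR F) ∈ I := by
      rw [← el_mul_cj]
      exact I.mul_mem_right _ hz
    have h5 := zero_dvd_iff.1 ((hJ'dvd _).1 h4)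
    obtain ⟨rfl, rfl⟩ := norm_ne hodd h5
    exact hz0 (by rw [el_left, map_zero])
  have hU₁ne : U₁ ≠ 0 := by
    rintro rfl
    rw [mul_zero] at hU₁
    exact hU₀ne hU₁
  have hlc : U₁.leadingCoeff ≠ 0 := leadingCoeff_ne_zero.2 hU₁ne
  have hass : Associated U₁ (U₁ * C U₁.leadingCoeff⁻¹) :=
    (associated_mul_unit_right U₁ _ (isUnit_C.2 (isUnit_iff_ne_zero.2 (inv_ne_zero hlc))))
  refine ⟨P, U₁ * C U₁.leadingCoeff⁻¹, V, hP0, monic_mul_leadingCoeff_inv hU₁ne,
    (hass.dvd_iff_dvd_left).1 hdvd, ?_⟩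
  have hpid : pid F (U₁ * C U₁.leadingCoeff⁻¹) V = pid F U₁ V := by
    unfold pid
    have hu : IsUnit (pp (C U₁.leadingCoeff⁻¹) : CR F) :=
      (isUnit_C.2 (isUnit_iff_ne_zero.2 (inv_ne_zero hlc))).map _
    rw [map_mul, Ideal.span_insert, Ideal.span_insert, Ideal.span_singleton_mul_right_unit hu]
  rw [hpid]
  apply le_antisymm
  · intro z hz
    obtain ⟨p, q, rfl⟩ := exists_el z
    obtain ⟨q', rfl⟩ := hq p q hz
    have h6 : (pp (p + q' * (P * V)) : CR F) ∈ I := by
      have e : (pp (p + q' * (P * V)) : CR F) = el p (P * q') -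
          pp q' * (pp P * (yy F - pp V)) := by
        unfold el
        simp only [map_mul, map_add]
        ring
      rw [e]
      exact I.sub_mem hz (I.mul_mem_left _ hV1)
    obtain ⟨s, hs⟩ := (hJ'dvd _).1 h6
    have e : (el p (P * q') : CR F) = pp P * (pp q' * (yy F - pp V) + pp s * pp U₁) := by
      have h7 : (pp p : CR F) = pp (P * (U₁ * s)) - pp (q' * (P * V)) := by
        rw [← map_sub]
        congr 1
        rw [← mul_assoc, ← hU₁, ← hs]
        ring
      rw [el, h7]
      simp only [map_mul]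
      ring
    rw [e]
    refine Ideal.mul_mem_mul (Ideal.mem_span_singleton_self _) (Ideal.add_mem _
      (Ideal.mul_mem_left _ _ (yy_mem_pid _ _)) (Ideal.mul_mem_left _ _ (pp_mem_pid _ _)))
  · rw [Ideal.span_singleton_mul_le_iff]
    intro z hz
    unfold pid at hz
    rw [Ideal.mem_span_pair] at hz
    obtain ⟨a, b, rfl⟩ := hz
    have e : (pp P * (a * pp U₁ + b * (yy F - pp V)) : CR F) =
        a * pp U₀ + b * (pp P * (yy F - pp V)) := by
      rw [hU₁, map_mul]
      ring
    rw [e]
    exact I.add_mem (I.mul_mem_left _ hU₀m) (I.mul_mem_left _ hV1)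

/-- A divisor. -/
structure Semi (F U V : K[X]) : Prop where
  monic : U.Monic
  dvd : U ∣ F - V ^ 2

/-- A reduced divisor. -/
structure Red (F U V : K[X]) : Prop extends Semi F U V where
  lt : V.degree < U.degree
  small : 2 * U.natDegree < F.natDegree

theorem Semi.neg {U V : K[X]} (h : Semi F U V) : Semi F U (-V) :=
  ⟨h.monic, by rw [neg_sq]; exact h.dvd⟩

theorem Red.neg {U V : K[X]} (h : Red F U V) : Red F U (-V) :=
  ⟨h.toSemi.neg, by rw [degree_neg]; exact h.lt, h.small⟩

/-- the class of a divisor -/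
noncomputable def cM [IsDedekindDomain (CR F)] {U V : K[X]} (h : Semi F U V) :
    ClassGroup (CR F) := cls F U V h.monic.ne_zero

theorem cM_inv (h2 : (2 : K) ≠ 0) (hsq : Squarefree F) [IsDedekindDomain (CR F)] {U V : K[X]}
    (h : Semi F U V) : cM h.neg = (cM h)⁻¹ := by
  symm
  apply inv_eq_of_mul_eq_one_right
  unfold cM cls
  rw [← map_mul, ← map_one ClassGroup.mk0, ClassGroup.mk0_eq_mk0_iff]
  refine ⟨1, pp U, one_ne_zero, ?_, ?_⟩
  · intro h0
    exact h.monic.ne_zero ((injective_iff_map_eq_zero _).1 pp_inj _ h0)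
  · show Ideal.span {1} * (pid F U V * pid F U (-V)) = Ideal.span {pp U} * 1
    rw [pid_cj h2 hsq h.dvd, Ideal.span_singleton_one, Ideal.top_mul, mul_one]

theorem cM_red (h2 : (2 : K) ≠ 0) (hsq : Squarefree F) [IsDedekindDomain (CR F)] {U V W : K[X]}
    (h : Semi F U V) (h' : Semi F W V) (c : K) (hc : c ≠ 0) (e : U * (C c * W) = F - V ^ 2) :
    cM h = cM h'.neg := by
  rw [cM_inv h2 hsq h']
  apply eq_inv_of_mul_eq_one_left
  unfold cM cls
  rw [← map_mul, ← map_one ClassGroup.mk0, ClassGroup.mk0_eq_mk0_iff]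
  refine ⟨1, yy F - pp V, one_ne_zero, span_yy_ne, ?_⟩
  show Ideal.span {1} * (pid F U V * pid F W V) = Ideal.span {yy F - pp V} * 1
  have hpid : pid F (C c * W) V = pid F W V := by
    unfold pid
    have hu : IsUnit (pp (C c) : CR F) := (isUnit_C.2 (isUnit_iff_ne_zero.2 hc)).map _
    rw [map_mul, Ideal.span_insert, Ideal.span_insert, Ideal.span_singleton_mul_left_unit hu]
  rw [← hpid, pid_mul' h2 hsq e, Ideal.span_singleton_one, Ideal.top_mul, mul_one]

theorem natDegree_sub_sq (hodd : Odd F.natDegree) (V : K[X]) :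
    (F - V ^ 2).natDegree ≤ max F.natDegree (2 * V.natDegree) ∧ F - V ^ 2 ≠ 0 := by
  constructor
  · refine (natDegree_sub_le _ _).trans (max_le_max le_rfl ?_)
    rw [natDegree_pow]
  · intro h
    have h1 : F = V ^ 2 := sub_eq_zero.1 h
    have h2 := congrArg natDegree h1
    rw [natDegree_pow] at h2
    obtain ⟨c, hc⟩ := hodd
    omega

/-- every class is the class of a reduced divisor -/
theorem exists_red (h2 : (2 : K) ≠ 0) (hodd : Odd F.natDegree) (hsq : Squarefree F)
    [IsDedekindDomain (CR F)] (c : ClassGroup (CR F)) :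
    ∃ (U V : K[X]) (h : Red F U V), c = cM h.toSemi := by
  obtain ⟨U, V, h, hc⟩ : ∃ (U V : K[X]) (h : Semi F U V), c = cM h := by
    obtain ⟨I, rfl⟩ := ClassGroup.mk0_surjective c
    obtain ⟨P, U, V, hP, hU, hd, hI⟩ := hermite hodd I.1 (mem_nonZeroDivisors_iff_ne_zero.1 I.2)
    refine ⟨U, V, ⟨hU, hd⟩, ?_⟩
    unfold cM cls
    rw [ClassGroup.mk0_eq_mk0_iff]
    refine ⟨1, pp P, one_ne_zero, ?_, ?_⟩
    · intro h0
      exact hP ((injective_iff_map_eq_zero _).1 pp_inj _ h0)
    · show Ideal.span {1} * I.1 = Ideal.span {pp P} * pid F U V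
      rw [Ideal.span_singleton_one, Ideal.top_mul, hI]
  induction hn : U.natDegree using Nat.strong_induction_on generalizing U V with
  | _ n ih =>
  -- reduce the second polynomial
  have hV' : V %ₘ U - V = U * (-(V /ₘ U)) := by
    have := modByMonic_add_div V U
    linear_combination this
  have hdvd' : U ∣ V %ₘ U - V := ⟨_, hV'⟩
  have hsemi : Semi F U (V %ₘ U) := by
    refine ⟨h.monic, ?_⟩
    have e : F - (V %ₘ U) ^ 2 = (F - V ^ 2) - (V %ₘ U - V) * (V %ₘ U + V) := by ring
    rw [e]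
    exact dvd_sub h.dvd (hdvd'.mul_right _)
  have hcl : cM h = cM hsemi := by
    unfold cM cls
    congr 1
    apply Subtype.ext
    show pid F U V = pid F U (V %ₘ U)
    exact (pid_congr hdvd').symm
  have hlt : (V %ₘ U).degree < U.degree := degree_modByMonic_lt V h.monic
  by_cases hsm : 2 * U.natDegree < F.natDegree
  · exact ⟨U, V %ₘ U, ⟨hsemi, hlt, hsm⟩, by rw [hc, hcl]⟩
  · obtain ⟨W, hW⟩ := hsemi.dvd
    obtain ⟨h5, h6⟩ := natDegree_sub_sq hodd (V %ₘ U)
    have hW0 : W ≠ 0 := by
      rintro rfl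
      rw [mul_zero] at hW
      exact h6 hW
    have hlc : W.leadingCoeff ≠ 0 := leadingCoeff_ne_zero.2 hW0
    set W' : K[X] := W * C W.leadingCoeff⁻¹ with hW'
    have hWW' : W = C W.leadingCoeff * W' := by
      rw [hW', mul_comm, mul_assoc, ← C_mul, inv_mul_cancel₀ hlc, C_1, mul_one]
    have hsemi' : Semi F W' (V %ₘ U) := by
      refine ⟨monic_mul_leadingCoeff_inv hW0, ?_⟩
      rw [hW, hWW']
      exact ⟨U * C W.leadingCoeff, by ring⟩
    have hcl' : cM hsemi = cM hsemi'.neg := by
      refine cM_red h2 hsq hsemi hsemi' W.leadingCoeff hlc ?_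
      rw [← hWW', hW]
    have hdeg : W'.natDegree < n := by
      have h7 : W'.natDegree = W.natDegree := by
        rw [hW', natDegree_mul_C (inv_ne_zero hlc)]
      have h8 : (F - (V %ₘ U) ^ 2).natDegree = U.natDegree + W.natDegree := by
        rw [hW, natDegree_mul h.monic.ne_zero hW0]
      have hUpos : 0 < U.natDegree := by
        obtain ⟨c, hc⟩ := hodd
        omega
      have h9 : (V %ₘ U).natDegree < U.natDegree := by
        refine natDegree_modByMonic_lt V h.monic ?_
        rintro rfl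
        simp at hUpos
      obtain ⟨c, hc⟩ := hodd
      rw [h7]
      omega
    exact ih W'.natDegree hdeg W' (-(V %ₘ U)) hsemi'.neg (by rw [hc, hcl, hcl']) rfl

theorem norm_natDegree (hodd : Odd F.natDegree) {P Q : K[X]} (hQ : Q ≠ 0) :
    F.natDegree ≤ (P ^ 2 - F * Q ^ 2).natDegree := by
  have hF0 : F ≠ 0 := by
    rintro rfl
    rw [natDegree_zero] at hodd
    exact absurd hodd (by decide)
  have h1 : (F * Q ^ 2).natDegree = F.natDegree + 2 * Q.natDegree := by
    rw [natDegree_mul hF0 (pow_ne_zero 2 hQ), natDegree_pow]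
  have h3 : (P ^ 2).natDegree = 2 * P.natDegree := natDegree_pow _ _
  have hne : (P ^ 2).natDegree ≠ (F * Q ^ 2).natDegree := by
    rw [h1, h3]
    obtain ⟨c, hc⟩ := hodd
    omega
  rcases lt_or_gt_of_ne hne with h | h
  · rw [natDegree_sub_eq_right_of_natDegree_lt h, h1]
    omega
  · rw [natDegree_sub_eq_left_of_natDegree_lt h]
    omega

/-- the content of an ideal -/
theorem content {U V U' V' A B : K[X]}
    (e : Ideal.span {(pp A : CR F)} * pid F U V = Ideal.span {pp B} * pid F U' V') : B ∣ A := by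
  have h1 : (el (-(A * V)) A : CR F) ∈ Ideal.span {pp B} * pid F U' V' := by
    rw [← e]
    have e1 : (el (-(A * V)) A : CR F) = pp A * (yy F - pp V) := by
      unfold el
      rw [map_neg, map_mul]
      ring
    rw [e1]
    exact Ideal.mul_mem_mul (Ideal.mem_span_singleton_self _) (yy_mem_pid _ _)
  rw [Ideal.mem_span_singleton_mul] at h1
  obtain ⟨z, _, hz⟩ := h1
  obtain ⟨p, q, rfl⟩ := exists_el z
  rw [← el_left, el_mul] at hz
  refine ⟨q, ?_⟩
  have := (el_inj hz).2
  rw [← this]
  ring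

theorem pid_inj {U V U' V' : K[X]} (h : Semi F U V) (h' : Semi F U' V')
    (e : pid F U V = pid F U' V') (hV : V.degree < U.degree) (hV' : V'.degree < U'.degree) :
    U = U' ∧ V = V' := by
  have h1 : U' ∣ U := by
    have := pp_mem_pid (F := F) U V
    rw [e, ← el_left, mem_pid h'.dvd, zero_mul, add_zero] at this
    exact this
  have h3 : U ∣ U' := by
    have := pp_mem_pid (F := F) U' V'
    rw [← e, ← el_left, mem_pid h.dvd, zero_mul, add_zero] at this
    exact this
  have hU : U = U' := eq_of_monic_of_associated h.monic h'.monic (associated_of_dvd_dvd h3 h1)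
  subst hU
  refine ⟨rfl, ?_⟩
  have h4 : (el (-V) 1 : CR F) ∈ pid F U V' := by
    rw [← e]
    have e1 : (el (-V) 1 : CR F) = yy F - pp V := by
      unfold el
      rw [map_neg, map_one]
      ring
    rw [e1]
    exact yy_mem_pid _ _
  rw [mem_pid h'.dvd, one_mul] at h4
  have h5 : -V + V' = 0 := by
    by_contra h6
    have h7 := degree_le_of_dvd h4 h6
    have h8 : (-V + V').degree < U.degree := by
      refine lt_of_le_of_lt (degree_add_le _ _) (max_lt ?_ hV')
      rwa [degree_neg]
    exact absurd h7 (not_le.2 h8)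
  linear_combination -h5

/-- cancellation of a principal ideal -/
theorem cancel_pr {B : Type} [CommRing B] [IsDomain B] {x z : B} (hx : x ≠ 0) {J : Ideal B}
    (h : Ideal.span {x} * J = Ideal.span {z}) : ∃ f, J = Ideal.span {f} := by
  have h4 : z ∈ Ideal.span {x} * J := by
    rw [h]
    exact Ideal.mem_span_singleton_self _
  obtain ⟨f, _, hf⟩ := Ideal.mem_span_singleton_mul.1 h4
  refine ⟨f, ?_⟩
  rw [← hf, ← Ideal.span_singleton_mul_span_singleton] at h
  exact (Ideal.span_singleton_mul_right_inj hx).1 h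

theorem norm_span (h2 : (2 : K) ≠ 0) (hsq : Squarefree F) {U V U' V' P Q : K[X]}
    (h : Semi F U V) (h' : Semi F U' V')
    (h5 : pid F U V * pid F U' (-V') = Ideal.span {el P Q}) :
    Ideal.span {(pp (U * U') : CR F)} = Ideal.span {pp (P ^ 2 - F * Q ^ 2)} := by
  have hmap : Ideal.map (cj F) (pid F U V * pid F U' (-V')) = pid F U (-V) * pid F U' V' := by
    rw [Ideal.map_mul, map_cj, map_cj, neg_neg]
  have e1 : (pid F U V * pid F U' (-V')) * Ideal.map (cj F) (pid F U V * pid F U' (-V')) =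
      Ideal.span {pp (P ^ 2 - F * Q ^ 2)} := by
    rw [h5, Ideal.map_span, Set.image_singleton, Ideal.span_singleton_mul_span_singleton,
      el_mul_cj]
  rw [← e1, hmap, mul_mul_mul_comm, pid_cj h2 hsq h.dvd, mul_comm (pid F U' (-V')),
    pid_cj h2 hsq h'.dvd, Ideal.span_singleton_mul_span_singleton, map_mul]

/-- the reduced divisor of a class is unique -/
theorem red_unique (h2 : (2 : K) ≠ 0) (hodd : Odd F.natDegree) (hsq : Squarefree F)
    [IsDedekindDomain (CR F)] {U V U' V' : K[X]} (h : Red F U V) (h' : Red F U' V')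
    (e : cM h.toSemi = cM h'.toSemi) : U = U' ∧ V = V' := by
  obtain ⟨x, y, hx, hy, hxy⟩ : ∃ x y : CR F, x ≠ 0 ∧ y ≠ 0 ∧
      Ideal.span {x} * pid F U V = Ideal.span {y} * pid F U' V' := by
    unfold cM cls at e
    rw [ClassGroup.mk0_eq_mk0_iff] at e
    obtain ⟨x, y, hx, hy, hxy⟩ := e
    exact ⟨x, y, hx, hy, hxy⟩
  -- multiply by the conjugate
  have h3 : Ideal.span {x} * (pid F U V * pid F U' (-V')) = Ideal.span {y * pp U'} := by
    rw [← mul_assoc, hxy, mul_assoc, pid_cj h2 hsq h'.dvd, Ideal.span_singleton_mul_span_singleton]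
  obtain ⟨f, h5⟩ := cancel_pr hx h3
  obtain ⟨P, Q, rfl⟩ := exists_el f
  obtain ⟨u, hu⟩ := norm_assoc (norm_span h2 hsq h.toSemi h'.toSemi h5)
  have hQ : Q = 0 := by
    by_contra hQ
    have h7 := norm_natDegree hodd (P := P) hQ
    rw [← hu, natDegree_mul (mul_ne_zero h.monic.ne_zero h'.monic.ne_zero) u.ne_zero,
      natDegree_mul h.monic.ne_zero h'.monic.ne_zero, natDegree_eq_zero_of_isUnit u.isUnit] at h7
    have h8 := h.small
    have h9 := h'.small
    omega
  rw [hQ, el_left] at h5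
  -- compare the contents
  have h7 : Ideal.span {(pp U' : CR F)} * pid F U V = Ideal.span {pp P} * pid F U' V' := by
    rw [← h5, mul_assoc, mul_comm (pid F U' (-V')), pid_cj h2 hsq h'.dvd, mul_comm]
  have h8 : P ∣ U' := content h7
  have h9 : U' ∣ P := content h7.symm
  obtain ⟨v, hv⟩ := associated_of_dvd_dvd h9 h8
  have h10 : Ideal.span {(pp P : CR F)} = Ideal.span {pp U'} := by
    rw [← hv, map_mul, Ideal.span_singleton_mul_right_unit (v.isUnit.map _)]
  rw [h10] at h7
  have hsp : Ideal.span {(pp U' : CR F)} ≠ ⊥ := by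
    rw [Ne, Ideal.span_singleton_eq_bot]
    intro h0
    exact h'.monic.ne_zero ((injective_iff_map_eq_zero _).1 pp_inj _ h0)
  exact pid_inj h.toSemi h'.toSemi (mul_left_cancel₀ hsp h7) h.lt h'.lt

theorem red_one (hn : 0 < F.natDegree) : Red F 1 0 :=
  ⟨⟨monic_one, one_dvd _⟩, by simp, by simpa using hn⟩

theorem cM_one [IsDedekindDomain (CR F)] {V : K[X]} (h : Semi F 1 V) : cM h = 1 := by
  unfold cM cls
  rw [← map_one ClassGroup.mk0]
  congr 1
  apply Subtype.ext
  show pid F 1 V = 1
  rw [pid_one, Ideal.one_eq_top]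

/-- the trivial class -/
theorem red_eq_one (h2 : (2 : K) ≠ 0) (hodd : Odd F.natDegree) (hsq : Squarefree F)
    [IsDedekindDomain (CR F)] {U V : K[X]} (h : Red F U V) (e : cM h.toSemi = 1) :
    U = 1 ∧ V = 0 := by
  have h1 := red_one (F := F) hodd.pos
  exact red_unique h2 hodd hsq h h1 (by rw [e, cM_one])

end

end Q45.RG
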