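import Pool.Agent.Q45.RG.Der

/-!
# Places of a finite extension of a rational function field
-/

set_option autoImplicit false
set_option maxHeartbeats 1000000

open Polynomial WithZero IsDedekindDomain

namespace Q45.RG

/-- the difference of two values of a polynomial -/
theorem eval_close {L : Type} [Field L] (v : Valuation L ℤᵐ⁰) (p : L[X])
    (hp : ∀ n, v (p.coeff n) ≤ 1) {x y : L} (hx : v x ≤ 1) (hy : v y ≤ 1) (h : v (x - y) < 1) :
    v (p.eval x - p.eval y) < 1 := by
  have h1 : ∀ n : ℕ, v (x ^ n - y ^ n) < 1 := by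
    intro n
    obtain ⟨c, hc, e⟩ : ∃ c, v c ≤ 1 ∧ x ^ n - y ^ n = (x - y) * c := by
      refine ⟨∑ i ∈ Finset.range n, x ^ i * y ^ (n - 1 - i), ?_, ?_⟩
      · refine v.map_sum_le fun i _ => ?_
        rw [map_mul, map_pow, map_pow]
        exact mul_le_one' (pow_le_one' hx _) (pow_le_one' hy _)
      · rw [mul_comm]
        exact ((Commute.all x y).geom_sum₂_mul n).symm
    rw [e, map_mul]
    exact lt_of_le_of_lt (mul_le_of_le_one_right' hc) h
  rw [eval_eq_sum_range, eval_eq_sum_range, ← Finset.sum_sub_distrib]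
  refine v.map_sum_lt one_ne_zero fun i _ => ?_
  rw [← mul_sub, map_mul]
  exact lt_of_le_of_lt (mul_le_of_le_one_left' (hp i)) (h1 i)

theorem unit_val {L : Type} [Field L] (v : Valuation L ℤᵐ⁰) {x y : L} (hx : v x ≤ 1) (hy : v y ≤ 1)
    (h : x * y = 1) : v x = 1 := by
  have h1 : v x * v y = 1 := by rw [← map_mul, h, map_one]
  refine le_antisymm hx ?_
  by_contra hcon
  rw [not_le] at hcon
  have : v x * v y < 1 := lt_of_le_of_lt (mul_le_of_le_one_right' hy) hcon
  exact absurd h1 this.ne

/-- A place of `L` over the place `q` of the line with the coordinate `t` over `M`. -/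
structure IsPlace (M : Type) {K₀ L : Type} [Field M] [Field K₀] [Field L] [Algebra M K₀]
    [Algebra K₀ L] [Algebra M L] (t : K₀) (D : Derivation ℤ L L) (q : M[X])
    (v : Valuation L ℤᵐ⁰) : Prop where
  unit : ∀ m : M, m ≠ 0 → v (algebraMap M L m) = 1
  int : ∀ p : M[X], v (algebraMap K₀ L (aeval t p)) ≤ 1
  intD : ∀ p : M[X], v (D (algebraMap K₀ L (aeval t p))) ≤ 1
  lt : v (algebraMap K₀ L (aeval t q)) < 1
  unif : ∃ ϖ, v ϖ = exp (-1 : ℤ)
  bd : ∀ (π : L) (e : ℕ), 1 ≤ e → v π = exp (-(e : ℤ)) → v (D π) ≤ 1 →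
    ∀ x, v x ≤ 1 → v (D x) ≤ exp ((e : ℤ) - 1)

theorem place {M K₀ L : Type} [Field M] [CharZero M] [Field K₀] [Field L] [Algebra M K₀]
    [Algebra K₀ L] [Algebra M L] [IsScalarTower M K₀ L] [FiniteDimensional K₀ L] (t : K₀)
    (ht : Transcendental M t)
    (hfrac : ∀ z : K₀, ∃ p q : M[X], aeval t q ≠ 0 ∧ z * aeval t q = aeval t p)
    (D : Derivation ℤ L L) (hD : ∀ m : M, ∃ m' : M, D (algebraMap M L m) = algebraMap M L m')
    (hDt : D (algebraMap K₀ L t) = 0) (q : M[X]) (hq : Irreducible q) :
    ∃ v : Valuation L ℤᵐ⁰, IsPlace M t D q v := by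
  classical
  have hinj : Function.Injective (aeval t : M[X] →ₐ[M] K₀) := transcendental_iff_injective.1 ht
  let _ : Algebra M[X] K₀ := (aeval t : M[X] →ₐ[M] K₀).toRingHom.toAlgebra
  have hmap : ∀ p : M[X], algebraMap M[X] K₀ p = aeval t p := fun _ => rfl
  have _ : FaithfulSMul M[X] K₀ := (faithfulSMul_iff_algebraMap_injective _ _).2 hinj
  have _ : IsFractionRing M[X] K₀ := by
    apply IsFractionRing.of_field
    intro z
    obtain ⟨p, r, h1, h2⟩ := hfrac z
    exact ⟨p, r, by rw [hmap, hmap, ← h2, mul_div_cancel_right₀ _ h1]⟩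
  let _ : Algebra M[X] L := ((algebraMap K₀ L).comp (algebraMap M[X] K₀)).toAlgebra
  have _ : IsScalarTower M[X] K₀ L := IsScalarTower.of_algebraMap_eq' rfl
  have hmapL : ∀ p : M[X], algebraMap M[X] L p = algebraMap K₀ L (aeval t p) := fun _ => rfl
  have hcz : CharZero K₀ := charZero_of_injective_algebraMap (algebraMap M K₀).injective
  have hczL : CharZero L := charZero_of_injective_algebraMap (algebraMap M L).injective
  let B := integralClosure M[X] L
  have _ : IsDedekindDomain B := integralClosure.isDedekindDomain M[X] K₀ L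
  have _ : IsFractionRing B L := integralClosure.isFractionRing_of_finite_extension K₀ L
  have hfin : Module.Finite M[X] B := IsIntegralClosure.finite M[X] K₀ L B
  have hinjB : Function.Injective (algebraMap M[X] B) := by
    intro a b hab
    have h1 : algebraMap M[X] L a = algebraMap M[X] L b := by
      rw [IsScalarTower.algebraMap_apply M[X] B L, hab, ← IsScalarTower.algebraMap_apply]
    rw [hmapL, hmapL] at h1
    exact hinj ((algebraMap K₀ L).injective h1)
  -- a prime over `q`
  have hqm : (Ideal.span {q} : Ideal M[X]).IsMaximal :=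
    PrincipalIdealRing.isMaximal_of_irreducible hq
  obtain ⟨𝔓, h𝔓m, h𝔓⟩ := Ideal.exists_ideal_over_maximal_of_isIntegral (S := B)
    (Ideal.span {q} : Ideal M[X]) (by
      rw [(RingHom.injective_iff_ker_eq_bot _).1 hinjB]
      exact bot_le)
  have hqP : algebraMap M[X] B q ∈ 𝔓 := by
    rw [← Ideal.mem_comap, h𝔓]
    exact Ideal.mem_span_singleton_self q
  have hP0 : 𝔓 ≠ ⊥ := by
    intro h0
    rw [h0, Ideal.mem_bot] at hqP
    exact hq.ne_zero (hinjB (by rw [hqP, map_zero]))
  let w : HeightOneSpectrum B := ⟨𝔓, h𝔓m.isPrime, hP0⟩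
  let v : Valuation L ℤᵐ⁰ := w.valuation L
  have hvB : ∀ b : B, v (algebraMap B L b) ≤ 1 := fun b => w.valuation_le_one b
  have hvP : ∀ p : M[X], v (algebraMap M[X] L p) ≤ 1 := by
    intro p
    rw [IsScalarTower.algebraMap_apply M[X] B L]
    exact hvB _
  have hC : ∀ m : M, algebraMap M[X] L (C m) = algebraMap M L m := by
    intro m
    rw [hmapL, aeval_C, ← IsScalarTower.algebraMap_apply]
  have hM : ∀ m : M, m ≠ 0 → v (algebraMap M L m) = 1 := by
    intro m hm
    refine unit_val v (y := algebraMap M L m⁻¹) ?_ ?_ ?_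
    · rw [← hC]; exact hvP _
    · rw [← hC]; exact hvP _
    · rw [← map_mul, mul_inv_cancel₀ hm, map_one]
  -- the derivation on the polynomials
  have hDp : ∀ p : M[X], ∃ p' : M[X], D (algebraMap M[X] L p) = algebraMap M[X] L p' := by
    intro p
    induction p using Polynomial.induction_on' with
    | add a b ha hb =>
      obtain ⟨a', ha⟩ := ha
      obtain ⟨b', hb⟩ := hb
      exact ⟨a' + b', by rw [map_add, map_add, ha, hb, map_add]⟩
    | monomial n a =>
      obtain ⟨a', ha⟩ := hD a
      refine ⟨C a' * X ^ n, ?_⟩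
      rw [← C_mul_X_pow_eq_monomial, map_mul, map_pow, D.leibniz, D.leibniz_pow]
      have hX : D (algebraMap M[X] L X) = 0 := by
        rw [hmapL, aeval_X]
        exact hDt
      rw [hX, hC, ha, map_mul, map_pow, hC]
      simp only [smul_eq_mul, mul_zero, smul_zero, zero_add]
      ring
  refine ⟨v, hM, ?_, ?_, ?_, w.valuation_exists_uniformizer L, ?_⟩
  · intro p
    have := hvP p
    rwa [hmapL] at this
  · intro p
    obtain ⟨p', hp'⟩ := hDp p
    rw [← hmapL, hp']
    exact hvP p'
  · have h1 : v (algebraMap B L (algebraMap M[X] B q)) < 1 := (w.valuation_lt_one_iff_mem _).2 hqP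
    rwa [← IsScalarTower.algebraMap_apply, hmapL] at h1
  · intro π e he hπ hDπ
    obtain ⟨ϖ, hϖ⟩ := w.valuation_exists_uniformizer L
    have hϖ' : v ϖ = exp (-1 : ℤ) := hϖ
    have hpow : ∀ n : ℕ, v (ϖ ^ n) = exp (-(n : ℤ)) := by
      intro n
      rw [map_pow, hϖ', ← exp_nsmul]
      congr 1
      simp
    have hone : ∀ x : L, ∃ N : ℕ, ∀ n, N ≤ n → v (ϖ ^ n * x) ≤ 1 := by
      intro x
      rcases eq_or_ne (v x) 0 with h0 | h0
      · exact ⟨0, fun n _ => by rw [map_mul, h0, mul_zero]; exact zero_le⟩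
      · refine ⟨(log (v x)).toNat, fun n hn => ?_⟩
        rw [map_mul, hpow, ← exp_log h0, ← exp_add, ← exp_zero, exp_le_exp]
        omega
    -- a common denominator
    obtain ⟨s, hs⟩ := hfin.fg_top
    choose Nf hNf using hone
    let N := s.sup fun b => Nf (D (algebraMap B L b))
    have hNB : ∀ b : B, v (ϖ ^ N * D (algebraMap B L b)) ≤ 1 := by
      intro b
      have hb : b ∈ Submodule.span M[X] (s : Set B) := by rw [hs]; trivial
      induction hb using Submodule.span_induction with
      | mem x hx =>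
        exact hNf _ _ (Finset.le_sup (f := fun b => Nf (D (algebraMap B L b))) hx)
      | zero => rw [map_zero, map_zero, mul_zero, map_zero]; exact zero_le
      | add x y _ _ hx hy =>
        rw [map_add, map_add, mul_add]
        exact add_le v hx hy
      | smul p x _ hx =>
        obtain ⟨p', hp'⟩ := hDp p
        have e1 : algebraMap B L (p • x) = algebraMap M[X] L p * algebraMap B L x := by
          rw [Algebra.smul_def, map_mul, ← IsScalarTower.algebraMap_apply]
        rw [e1, D.leibniz, hp']
        have e2 : ϖ ^ N * (algebraMap M[X] L p • D (algebraMap B L x) +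
            algebraMap B L x • algebraMap M[X] L p') =
            algebraMap M[X] L p * (ϖ ^ N * D (algebraMap B L x)) +
              ϖ ^ N * (algebraMap B L x * algebraMap M[X] L p') := by
          simp only [smul_eq_mul]
          ring
        rw [e2]
        apply add_le
        · rw [map_mul]
          exact mul_le_one' (hvP p) hx
        · rw [map_mul, map_mul, hpow]
          refine mul_le_one' ?_ (mul_le_one' (hvB x) (hvP p'))
          rw [← exp_zero, exp_le_exp]
          omega
    have hN : ∀ x, v x ≤ 1 → v (ϖ ^ N * D x) ≤ 1 := by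
      intro x hx
      obtain ⟨b, ⟨d, hd⟩, hbd⟩ := w.exists_primeCompl_mul_eq_of_integer x hx
      have hd1 : v (algebraMap B L d) = 1 := w.valuation_eq_one_iff_notMem.2 hd
      have hd0 : algebraMap B L d ≠ 0 := by
        intro h0
        rw [h0, map_zero] at hd1
        exact zero_ne_one hd1
      replace hbd : x * algebraMap B L d = algebraMap B L b := hbd
      have h1 : (ϖ ^ N * D x) * algebraMap B L d = ϖ ^ N * D (algebraMap B L b) -
          x * (ϖ ^ N * D (algebraMap B L d)) := by
        rw [← hbd, D.leibniz]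
        simp only [smul_eq_mul]
        ring
      have h3 : v ((ϖ ^ N * D x) * algebraMap B L d) ≤ 1 := by
        rw [h1]
        refine sub_le v (hNB b) ?_
        rw [map_mul]
        exact mul_le_one' hx (hNB d)
      rwa [map_mul, hd1, mul_one] at h3
    have hnat : ∀ n : ℕ, n ≠ 0 → v (n : L) = 1 := by
      intro n hn
      have h1 := hM (n : M) (by exact_mod_cast hn)
      rwa [map_natCast] at h1
    refine bound D v hnat hϖ' N hN (algebraMap M[X] L).range ?_ ?_ e he hπ hDπ
    · rintro _ ⟨p, rfl⟩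
      obtain ⟨p', hp'⟩ := hDp p
      exact ⟨hvP p, by rw [hp']; exact hvP p'⟩
    · intro x hx
      obtain ⟨b, hb⟩ := w.exists_valuation_sub_lt_of_integer hx 1
      have hb1 : v (algebraMap B L b - x) < 1 := by simpa using hb
      obtain ⟨h₀, hmon, hroot⟩ := Algebra.IsIntegral.isIntegral (R := M[X]) b
      refine ⟨h₀.map (algebraMap M[X] L), fun n => ?_, ?_, ?_⟩
      · rw [coeff_map]
        exact ⟨_, rfl⟩
      · rw [(hmon.map _).leadingCoeff, map_one]
      · have hbb : (h₀.map (algebraMap M[X] L)).eval (algebraMap B L b) = 0 := by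
          rw [eval_map, IsScalarTower.algebraMap_eq M[X] B L, ← hom_eval₂, hroot, map_zero]
        have h5 := eval_close v (h₀.map (algebraMap M[X] L))
          (fun n => by rw [coeff_map]; exact hvP _) (hvB b) hx hb1
        rwa [hbb, zero_sub, Valuation.map_neg] at h5

end Q45.RG
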