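import Pool.Agent.Q45.RG.Est

/-!
# An odd function without poles is zero
-/

set_option autoImplicit false
set_option maxHeartbeats 1000000

open Polynomial WithZero

namespace Q45.RG

section

variable {K₀ L : Type} [Field K₀] [CharZero K₀] [Field L] [Algebra K₀ L] {D₀ : Derivation ℤ K₀ K₀}
  {D : Derivation ℤ L L} (hD : ∀ c : K₀, D (algebraMap K₀ L c) = algebraMap K₀ L (D₀ c))

omit [CharZero K₀] in
include hD in
theorem dc_map (p : K₀[X]) : dc D (p.map (algebraMap K₀ L)) = (dc D₀ p).map (algebraMap K₀ L) := by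
  ext i
  rw [coeff_dc, coeff_map, coeff_map, coeff_dc, hD]

include hD in
/-- the extension of a derivation commutes with the automorphisms -/
theorem der_comm [Algebra.IsAlgebraic K₀ L] (τ : L ≃ₐ[K₀] L) (a : L) : D (τ a) = τ (D a) := by
  set p := minpoly K₀ a with hp
  have hint : IsIntegral K₀ a := Algebra.IsIntegral.isIntegral a
  have hsep : p.Separable := (minpoly.irreducible hint).separable
  have hmap : ∀ q : K₀[X], (q.map (algebraMap K₀ L)).eval (τ a) =
      τ ((q.map (algebraMap K₀ L)).eval a) := by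
    intro q
    rw [eval_map_algebraMap, eval_map_algebraMap, aeval_algHom_apply]
  have h1 : (p.map (algebraMap K₀ L)).eval a = 0 := by
    rw [eval_map_algebraMap, minpoly.aeval]
  have hder : (p.map (algebraMap K₀ L)).derivative.eval a ≠ 0 := by
    rw [derivative_map, eval_map_algebraMap]
    exact hsep.aeval_derivative_ne_zero (minpoly.aeval K₀ a)
  have h2 := eval_dc D a (p.map (algebraMap K₀ L))
  rw [h1, map_zero, dc_map hD] at h2
  have h3 := eval_dc D (τ a) (p.map (algebraMap K₀ L))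
  rw [hmap, h1, map_zero, map_zero, dc_map hD, hmap, derivative_map, hmap] at h3
  have h4 := congrArg τ h2
  rw [map_zero, map_add, map_mul, derivative_map] at h4
  rw [derivative_map] at hder
  have h5 : τ (((derivative p).map (algebraMap K₀ L)).eval a) ≠ 0 := by
    rwa [Ne, map_eq_zero_iff τ τ.injective]
  apply mul_left_cancel₀ h5
  linear_combination h4 - h3

end

section

variable {M K₀ L : Type} [Field M] [CharZero M] [Field K₀] [Field L] [Algebra M K₀]
  [Algebra K₀ L] [Algebra M L] [IsScalarTower M K₀ L] {D : Derivation ℤ L L}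

/-- the bounds at a place -/
structure Bd (M : Type) {L : Type} [Field M] [Field L] [Algebra M L] (D : Derivation ℤ L L)
    (v : Valuation L ℤᵐ⁰) (e : ℕ) : Prop where
  unit : ∀ m : M, m ≠ 0 → v (algebraMap M L m) = 1
  unif : ∃ ϖ, v ϖ = exp (-1 : ℤ)
  bd : ∀ x, v x ≤ 1 → v (D x) ≤ exp ((e : ℤ) - 1)

omit [CharZero M] [IsScalarTower M K₀ L] in
theorem IsPlace.val_one {t : K₀} {q : M[X]} {v : Valuation L ℤᵐ⁰} (h : IsPlace M t D q v)
    (hq : Irreducible q) {p : M[X]} (hp : ¬ q ∣ p) : v (algebraMap K₀ L (aeval t p)) = 1 := by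
  obtain ⟨a, b, hab⟩ := (hq.coprime_iff_not_dvd).2 hp
  refine le_antisymm (h.int p) ?_
  by_contra hcon
  rw [not_le] at hcon
  have h1 : v (algebraMap K₀ L (aeval t (a * q + b * p))) < 1 := by
    rw [map_add, map_mul, map_mul, map_add, map_mul, map_mul]
    refine v.map_add_lt ?_ ?_
    · rw [map_mul]
      exact lt_of_le_of_lt (mul_le_of_le_one_left' (h.int a)) h.lt
    · rw [map_mul]
      exact lt_of_le_of_lt (mul_le_of_le_one_left' (h.int b)) hcon
  rw [hab, map_one, map_one, map_one] at h1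
  exact lt_irrefl _ h1

theorem exists_exp {x : L} (v : Valuation L ℤᵐ⁰) (h0 : x ≠ 0) (h1 : v x < 1) :
    ∃ e : ℕ, 1 ≤ e ∧ v x = exp (-(e : ℤ)) := by
  have hv : v x ≠ 0 := (v.ne_zero_iff).2 h0
  have h2 : log (v x) < 0 := by
    rw [← exp_log hv, ← exp_zero, exp_lt_exp] at h1
    exact h1
  refine ⟨(-log (v x)).toNat, by omega, ?_⟩
  rw [Int.toNat_of_nonneg (by omega), neg_neg, exp_log hv]

omit [CharZero M] [IsScalarTower M K₀ L] in
theorem IsPlace.bd' {t : K₀} {q : M[X]} {v : Valuation L ℤᵐ⁰} (h : IsPlace M t D q v) {π : L}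
    {e : ℕ} (he : 1 ≤ e) (hπ : v π = exp (-(e : ℤ))) (hDπ : v (D π) ≤ 1) : Bd M D v e :=
  ⟨h.unit, h.unif, h.bd π e he hπ hDπ⟩

variable {x : K₀} (hx : Transcendental M x)
  (hfrac : ∀ z : K₀, ∃ p q : M[X], aeval x q ≠ 0 ∧ z * aeval x q = aeval x p)
  (hDM : ∀ m : M, ∃ m' : M, D (algebraMap M L m) = algebraMap M L m')
  (hDx : D (algebraMap K₀ L x) = 0) {F : M[X]} (hF : F.Monic) (hirr : Irreducible F)
  (hn : 3 ≤ F.natDegree)
  (hDF : ∀ i, D (algebraMap M L (F.coeff i)) = 0) {y : L}
  (hy : y ^ 2 = algebraMap K₀ L (aeval x F))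

omit [IsScalarTower M K₀ L] [CharZero M] [Field L] [Algebra K₀ L] [Algebra M L] in
include hx in
theorem aeval_ne {p : M[X]} (hp : p ≠ 0) : aeval x p ≠ 0 := by
  intro h
  exact hp ((injective_iff_map_eq_zero _).1 (transcendental_iff_injective.1 hx) _ h)

omit [CharZero M] in
include hx in
theorem trans_inv : Transcendental M x⁻¹ := by
  intro h
  apply hx
  have := h.inv
  rwa [inv_inv] at this

omit [CharZero M] in
include hx hfrac in
theorem frac_inv (z : K₀) : ∃ p q : M[X], aeval x⁻¹ q ≠ 0 ∧ z * aeval x⁻¹ q = aeval x⁻¹ p := by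
  have hx0 : x ≠ 0 := fun h => hx (h ▸ isAlgebraic_zero)
  have hrefl : ∀ (N : ℕ) (p : M[X]), p.natDegree ≤ N → aeval x⁻¹ (reflect N p) * x ^ N =
      aeval x p := by
    intro N p hp
    have hi : Invertible x := invertibleOfNonzero hx0
    have := eval₂_reflect_mul_pow (algebraMap M K₀) x N p hp
    rw [invOf_eq_inv] at this
    exact this
  obtain ⟨p, q, h1, h2⟩ := hfrac z
  set N := max p.natDegree q.natDegree with hN
  refine ⟨reflect N p, reflect N q, ?_, ?_⟩
  · intro h
    apply h1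
    rw [← hrefl N q (le_max_right _ _), h, zero_mul]
  · apply mul_right_cancel₀ (pow_ne_zero N hx0)
    rw [mul_assoc, hrefl N q (le_max_right _ _), hrefl N p (le_max_left _ _), h2]

theorem D_zero_of_sq [CharZero L] (hw : D (y ^ 2) = 0) (h0 : y ≠ 0) : D y = 0 := by
  rw [D.leibniz_pow] at hw
  simp only [smul_eq_mul, nsmul_eq_mul] at hw
  have h1 : (2 : L) * y ≠ 0 := mul_ne_zero two_ne_zero h0
  have h2 : (2 * y) * D y = 0 := by
    rw [← hw]
    push_cast
    ring
  exact (mul_eq_zero.1 h2).resolve_left h1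

include hx hfrac hDM hDx hF hirr hn hDF hy in
/-- an odd function with bounded poles at all the places is zero -/
theorem no_pole [FiniteDimensional K₀ L] (κ : K₀)
    (hest : ∀ (v : Valuation L ℤᵐ⁰) (e : ℕ), Bd M D v e →
      v (algebraMap K₀ L κ * y) ≤ exp ((e : ℤ) - 1)) : κ = 0 := by
  classical
  by_contra hκ
  have hcz : CharZero L := charZero_of_injective_algebraMap (algebraMap M L).injective
  have hinj : Function.Injective (aeval x : M[X] →ₐ[M] K₀) := transcendental_iff_injective.1 hx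
  have hne : ∀ p : M[X], p ≠ 0 → aeval x p ≠ 0 := fun p hp => aeval_ne hx hp
  have hκL : algebraMap K₀ L κ ≠ 0 := by rwa [Ne, map_eq_zero]
  have hy0 : y ≠ 0 := by
    rintro rfl
    have h1 : algebraMap K₀ L (aeval x F) = 0 := by rw [← hy]; ring
    rw [map_eq_zero] at h1
    exact hne F hF.ne_zero h1
  -- `D y = 0`
  have hDy : D y = 0 := by
    apply D_zero_of_sq _ hy0
    have h1 : algebraMap K₀ L (aeval x F) = (F.map (algebraMap M L)).eval (algebraMap K₀ L x) := by
      rw [eval_map_algebraMap, aeval_algebraMap_apply]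
    rw [hy, h1, eval_dc, hDx, mul_zero, add_zero]
    have h2 : dc D (F.map (algebraMap M L)) = 0 := by
      ext i
      rw [coeff_dc, coeff_map, hDF, coeff_zero]
    rw [h2, eval_zero]
  -- the reduced fraction
  obtain ⟨p₀, q₀, h1, h2⟩ := hfrac κ
  have hq₀ : q₀ ≠ 0 := by
    rintro rfl
    exact h1 (map_zero _)
  obtain ⟨q₁, p₁, g, hrel, hd, hq⟩ :=
    UniqueFactorizationMonoid.exists_reduced_factors q₀ hq₀ p₀
  have hg : g ≠ 0 := by
    rintro rfl
    rw [zero_mul] at hd
    exact hq₀ hd.symm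
  have hq₁ : q₁ ≠ 0 := by
    rintro rfl
    rw [mul_zero] at hd
    exact hq₀ hd.symm
  have h3 : κ * aeval x q₁ = aeval x p₁ := by
    apply mul_left_cancel₀ (hne g hg)
    rw [← hd, ← hq, map_mul, map_mul] at h2
    linear_combination h2
  have hp₁ : p₁ ≠ 0 := by
    rintro rfl
    rw [map_zero] at h3
    rcases mul_eq_zero.1 h3 with h | h
    · exact hκ h
    · exact hne q₁ hq₁ h
  have hvy : ∀ v : Valuation L ℤᵐ⁰, v y ^ 2 = v (algebraMap K₀ L (aeval x F)) := by
    intro v
    rw [← map_pow, hy]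
  have h3L : ∀ v : Valuation L ℤᵐ⁰, v (algebraMap K₀ L κ) * v (algebraMap K₀ L (aeval x q₁)) =
      v (algebraMap K₀ L (aeval x p₁)) := by
    intro v
    rw [← map_mul, ← map_mul, h3]
  by_cases hu : IsUnit q₁
  · -- the place at infinity
    obtain ⟨c, hc, hcq⟩ := Polynomial.isUnit_iff.1 hu
    have hx0 : x ≠ 0 := fun h => hx (h ▸ isAlgebraic_zero)
    have hDx' : D (algebraMap K₀ L x⁻¹) = 0 := by
      rw [map_inv₀, D.leibniz_inv, hDx, smul_zero]
    obtain ⟨v, hv⟩ := place (L := L) x⁻¹ (trans_inv hx) (frac_inv hx hfrac) D hDM hDx' X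
      irreducible_X
    have hlt := hv.lt
    rw [aeval_X] at hlt
    have hx0' : algebraMap K₀ L x⁻¹ ≠ 0 := by
      rw [Ne, map_eq_zero]
      exact inv_ne_zero hx0
    obtain ⟨e, he, hve⟩ := exists_exp v hx0' hlt
    have hbd := hv.bd' he hve (by rw [hDx', map_zero]; exact zero_le)
    have h4 := hest v e hbd
    have hvx : v (algebraMap K₀ L x) = exp (e : ℤ) := by
      have h5 : v (algebraMap K₀ L x) * v (algebraMap K₀ L x⁻¹) = 1 := by
        rw [← map_mul, ← map_mul, mul_inv_cancel₀ hx0, map_one, map_one]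
      rw [hve, exp_neg] at h5
      exact eq_of_mul_inv_eq_one h5
    have h1x : 1 < v (algebraMap K₀ L x) := by
      rw [hvx, ← exp_zero, exp_lt_exp]
      omega
    have hcoef : ∀ (p : M[X]) (i : ℕ), v ((p.map (algebraMap M L)).coeff i) ≤ 1 := by
      intro p i
      rw [coeff_map]
      by_cases h0 : p.coeff i = 0
      · rw [h0, map_zero, map_zero]; exact zero_le
      · exact (hv.unit _ h0).le
    have hvF : v (algebraMap K₀ L (aeval x F)) = exp (e : ℤ) ^ F.natDegree := by
      have h5 : algebraMap K₀ L (aeval x F) = (F.map (algebraMap M L)).eval (algebraMap K₀ L x) := by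
        rw [eval_map_algebraMap, aeval_algebraMap_apply]
      rw [h5, val_monic v (hF.map _) (hcoef F) h1x, natDegree_map, hvx]
    have hvq : v (algebraMap K₀ L (aeval x q₁)) = 1 := by
      rw [← hcq, aeval_C, ← IsScalarTower.algebraMap_apply]
      exact hv.unit c hc.ne_zero
    have hvp : 1 ≤ v (algebraMap K₀ L (aeval x p₁)) := by
      have hlc : p₁.leadingCoeff ≠ 0 := leadingCoeff_ne_zero.2 hp₁
      have h5 : algebraMap K₀ L (aeval x p₁) = algebraMap M L p₁.leadingCoeff *
          ((p₁ * C p₁.leadingCoeff⁻¹).map (algebraMap M L)).eval (algebraMap K₀ L x) := by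
        rw [eval_map_algebraMap, aeval_algebraMap_apply, map_mul, aeval_C, map_mul,
          ← IsScalarTower.algebraMap_apply, ← mul_assoc, mul_comm (algebraMap M L _), mul_assoc,
          ← map_mul, mul_inv_cancel₀ hlc, map_one, mul_one]
      rw [h5, map_mul, hv.unit _ hlc, one_mul,
        val_monic v ((monic_mul_leadingCoeff_inv hp₁).map _) (hcoef _) h1x]
      exact one_le_pow₀ h1x.le
    have hvκ : 1 ≤ v (algebraMap K₀ L κ) := by
      have := h3L v
      rw [hvq, mul_one] at this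
      rw [this]
      exact hvp
    have hvy0 : v y ≠ 0 := (v.ne_zero_iff).2 hy0
    obtain ⟨s, hs⟩ : ∃ s : ℤ, v y = exp s := ⟨_, (exp_log hvy0).symm⟩
    have h6 := hvy v
    rw [hvF, hs, ← exp_nsmul, ← exp_nsmul, exp_inj] at h6
    rw [map_mul, hs] at h4
    have h7 : exp s ≤ exp ((e : ℤ) - 1) := by
      calc exp s = 1 * exp s := (one_mul _).symm
        _ ≤ v (algebraMap K₀ L κ) * exp s := mul_le_mul_left hvκ _
        _ ≤ _ := h4
    rw [exp_le_exp] at h7
    simp only [nsmul_eq_mul] at h6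
    push_cast at h6
    have h8 : (3 : ℤ) * e ≤ F.natDegree * e := by
      refine mul_le_mul_of_nonneg_right ?_ (by positivity)
      exact_mod_cast hn
    omega
  · obtain ⟨q, hqi, hqd⟩ := WfDvdMonoid.exists_irreducible_factor hu hq₁
    have hqp : ¬ q ∣ p₁ := fun h => hqi.not_isUnit (hrel hqd h)
    obtain ⟨v, hv⟩ := place (L := L) x hx hfrac D hDM hDx q hqi
    have hvp := hv.val_one hqi hqp
    obtain ⟨r, hr⟩ := hqd
    have hvq1 : v (algebraMap K₀ L (aeval x q₁)) ≤ v (algebraMap K₀ L (aeval x q)) := by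
      rw [hr, map_mul, map_mul, map_mul]
      exact mul_le_of_le_one_right' (hv.int r)
    have hq0 : algebraMap K₀ L (aeval x q) ≠ 0 := by
      rw [Ne, map_eq_zero]
      exact hne q hqi.ne_zero
    have h3v := h3L v
    rw [hvp] at h3v
    by_cases hqF : q ∣ F
    · -- the ramified place
      obtain ⟨c, hc⟩ := hqF
      have hcu : IsUnit c := (hirr.isUnit_or_isUnit hc).resolve_left hqi.not_isUnit
      obtain ⟨c₀, hc₀, rfl⟩ := Polynomial.isUnit_iff.1 hcu
      have hvF : v (algebraMap K₀ L (aeval x F)) = v (algebraMap K₀ L (aeval x q)) := by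
        rw [hc, map_mul, map_mul, map_mul, aeval_C, ← IsScalarTower.algebraMap_apply,
          hv.unit _ hc₀.ne_zero, mul_one]
      have h5 := hvy v
      rw [hvF] at h5
      have hy1 : v y < 1 := by
        by_contra hcon
        rw [not_lt] at hcon
        have h6 : 1 ≤ v y ^ 2 := one_le_pow₀ hcon
        rw [h5] at h6
        exact absurd hv.lt (not_lt.2 h6)
      obtain ⟨e, he, hve⟩ := exists_exp v hy0 hy1
      have h4 := hest v e (hv.bd' he hve (by rw [hDy, map_zero]; exact zero_le))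
      rw [← h5, hve] at hvq1
      rw [map_mul, hve] at h4
      have h6 : (1 : ℤᵐ⁰) ≤ v (algebraMap K₀ L κ) * exp (-(e : ℤ)) ^ 2 := by
        rw [← h3v]
        exact mul_le_mul_right hvq1 _
      have h7 : (1 : ℤᵐ⁰) ≤ exp (-1 : ℤ) := by
        calc (1 : ℤᵐ⁰) ≤ v (algebraMap K₀ L κ) * exp (-(e : ℤ)) ^ 2 := h6
          _ = v (algebraMap K₀ L κ) * exp (-(e : ℤ)) * exp (-(e : ℤ)) := by rw [sq, mul_assoc]
          _ ≤ exp ((e : ℤ) - 1) * exp (-(e : ℤ)) := mul_le_mul_left h4 _
          _ = exp (-1 : ℤ) := by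
            rw [← exp_add]
            congr 1
            ring
      rw [← exp_zero, exp_le_exp] at h7
      omega
    · -- the unramified place
      have hvF := hv.val_one hqi hqF
      have h5 := hvy v
      rw [hvF] at h5
      have hy1 : v y = 1 := (pow_eq_one_iff_of_nonneg zero_le two_ne_zero).1 h5
      obtain ⟨e, he, hve⟩ := exists_exp v hq0 hv.lt
      have h4 := hest v e (hv.bd' he hve (hv.intD q))
      rw [map_mul, hy1, mul_one] at h4
      rw [hve] at hvq1
      have h7 : (1 : ℤᵐ⁰) ≤ exp (-1 : ℤ) := by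
        calc (1 : ℤᵐ⁰) = v (algebraMap K₀ L κ) * v (algebraMap K₀ L (aeval x q₁)) := h3v.symm
          _ ≤ exp ((e : ℤ) - 1) * exp (-(e : ℤ)) := mul_le_mul' h4 hvq1
          _ = exp (-1 : ℤ) := by
            rw [← exp_add]
            congr 1
            ring
      rw [← exp_zero, exp_le_exp] at h7
      omega

end

end Q45.RG
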