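import Pool.Agent.Q45.RG.Pole

/-!
# Rigidity of the odd maps from the curve to its Jacobian
-/

set_option autoImplicit false
set_option maxHeartbeats 1000000

open Polynomial WithZero

namespace Q45.RG

section

variable {L : Type} [Field L] (D : Derivation ℤ L L)

theorem dc_prod (s : Multiset L) (h : ∀ a ∈ s, D a = 0) :
    dc D (s.map fun a => X - C a).prod = 0 := by
  induction s using Multiset.induction_on with
  | empty => simp
  | cons a s ih =>
    rw [Multiset.map_cons, Multiset.prod_cons, (dc D).leibniz,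
      ih fun b hb => h b (Multiset.mem_cons_of_mem hb), map_sub, dc_X, dc_C,
      h a (Multiset.mem_cons_self a s)]
    simp

/-- a system with a Vandermonde matrix -/
theorem vander {T : Finset L} (g : L → L)
    (h : ∀ k < T.card, ∑ a ∈ T, g a * a ^ k = 0) : ∀ a ∈ T, g a = 0 := by
  classical
  let f : Fin T.card → L := fun i => (T.equivFin.symm i : L)
  have hf : Function.Injective f := by
    intro i j hij
    exact T.equivFin.symm.injective (Subtype.ext hij)
  have h1 : (fun i => g (f i)) = 0 := by
    refine Matrix.eq_zero_of_forall_pow_sum_mul_pow_eq_zero hf fun i => ?_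
    rw [← h i i.2, ← Finset.sum_coe_sort T]
    exact Fintype.sum_equiv T.equivFin.symm _ _ fun j => rfl
  intro a ha
  have h3 := congrFun h1 (T.equivFin ⟨a, ha⟩)
  simp only [f, Equiv.symm_apply_apply, Pi.zero_apply] at h3
  exact h3

end

section

variable {M K₀ : Type} [Field M] [CharZero M] [Field K₀] [Algebra M K₀] {x : K₀}
  (hx : Transcendental M x)
  (hfrac : ∀ z : K₀, ∃ p q : M[X], aeval x q ≠ 0 ∧ z * aeval x q = aeval x p)
  {D₀ : Derivation ℤ K₀ K₀} (hDM₀ : ∀ m, ∃ m', D₀ (algebraMap M K₀ m) = algebraMap M K₀ m')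
  (hDx₀ : D₀ x = 0) {F : M[X]} (hF : F.Monic) (hirr : Irreducible F) (hn : 3 ≤ F.natDegree)
  (hDF₀ : ∀ i, D₀ (algebraMap M K₀ (F.coeff i)) = 0) {U V₁ : K₀[X]} (hU : U.Monic)
  (hdvd : U ∣ F.map (algebraMap M K₀) - C (aeval x F) * V₁ ^ 2)
  (hsmall : 2 * U.natDegree < F.natDegree)

include hx hfrac hDM₀ hDx₀ hF hirr hn hDF₀ hU hdvd hsmall in
theorem rigid_core {L : Type} [Field L] [Algebra K₀ L] [Algebra M L] [IsScalarTower M K₀ L]
    [FiniteDimensional K₀ L] [IsGalois K₀ L] (D : Derivation ℤ L L)
    (hD : ∀ c : K₀, D (algebraMap K₀ L c) = algebraMap K₀ L (D₀ c)) {y : L}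
    (hy : y ^ 2 = algebraMap K₀ L (aeval x F)) (hs : (U.map (algebraMap K₀ L)).Splits) :
    dc D₀ U = 0 := by
  classical
  have hczL : CharZero L := charZero_of_injective_algebraMap (algebraMap M L).injective
  have hczK : CharZero K₀ := charZero_of_injective_algebraMap (algebraMap M K₀).injective
  set φ : K₀ →+* L := algebraMap K₀ L with hφ
  set w : K₀ := aeval x F with hw
  have hw0 : w ≠ 0 := aeval_ne hx hF.ne_zero
  have hy0 : y ≠ 0 := by
    rintro rfl
    apply hw0
    apply φ.injective
    rw [map_zero, ← hy]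
    ring
  have hDM : ∀ m : M, ∃ m' : M, D (algebraMap M L m) = algebraMap M L m' := by
    intro m
    obtain ⟨m', hm'⟩ := hDM₀ m
    exact ⟨m', by rw [IsScalarTower.algebraMap_apply M K₀ L, hD, hm',
      ← IsScalarTower.algebraMap_apply]⟩
  have hDF : ∀ i, D (algebraMap M L (F.coeff i)) = 0 := by
    intro i
    rw [IsScalarTower.algebraMap_apply M K₀ L, hD, hDF₀, map_zero]
  have hDx : D (φ x) = 0 := by rw [hD, hDx₀, map_zero]
  set FL : L[X] := F.map (algebraMap M L) with hFL
  have hFLm : (F.map (algebraMap M K₀)).map φ = FL := by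
    rw [Polynomial.map_map, ← IsScalarTower.algebraMap_eq]
  have hdcF : dc D FL = 0 := by
    ext i
    rw [coeff_dc, coeff_map, hDF, coeff_zero]
  obtain ⟨A₀, B₀, hAB₀⟩ := hirr.separable
  have hAB : A₀.map (algebraMap M L) * FL + B₀.map (algebraMap M L) * FL.derivative = 1 := by
    rw [hFL, derivative_map, ← Polynomial.map_mul, ← Polynomial.map_mul, ← Polynomial.map_add,
      hAB₀, Polynomial.map_one]
  set UL := U.map φ with hUL
  have hULm : UL.Monic := hU.map φ
  set W := V₁.map φ with hW
  set T : Finset L := UL.roots.toFinset with hT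
  have hTm : ∀ a, a ∈ T ↔ UL.eval a = 0 := by
    intro a
    rw [hT, Multiset.mem_toFinset, mem_roots hULm.ne_zero, IsRoot]
  have hb : ∀ a ∈ T, (y * W.eval a) ^ 2 = FL.eval a := by
    intro a ha
    obtain ⟨R, hR⟩ := Polynomial.map_dvd φ hdvd
    have h1 := congrArg (eval a) hR
    rw [eval_mul, (hTm a).1 ha, zero_mul, Polynomial.map_sub, hFLm, Polynomial.map_mul,
      Polynomial.map_pow, map_C, eval_sub, eval_mul, eval_pow, eval_C] at h1
    rw [mul_pow, hy]
    linear_combination -h1
  -- the sums
  have hμ : ∀ k, 2 * (k + 1) < F.natDegree → ∑ a ∈ T, (D a / W.eval a) * a ^ k = 0 := by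
    intro k hk
    set μ := ∑ a ∈ T, (D a / W.eval a) * a ^ k with hμ
    have hfix : ∀ τ : Gal(L/K₀), τ μ = μ := by
      intro τ
      have hmapτ : ∀ (p : K₀[X]) (a : L), (p.map φ).eval (τ a) = τ ((p.map φ).eval a) := by
        intro p a
        rw [hφ, eval_map_algebraMap, eval_map_algebraMap, aeval_algHom_apply]
      have hTτ : ∀ a, τ a ∈ T ↔ a ∈ T := by
        intro a
        rw [hTm, hTm, hUL, hmapτ, map_eq_zero_iff τ τ.injective]
      rw [hμ, map_sum]
      refine Finset.sum_bij (fun a _ => τ a) (fun a ha => (hTτ a).2 ha)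
        (fun a _ b _ h => τ.injective h) (fun b hb => ⟨τ.symm b, ?_, by simp⟩) fun a _ => ?_
      · rw [← hTτ, AlgEquiv.apply_symm_apply]
        exact hb
      · rw [map_mul, map_div₀, map_pow, ← der_comm hD τ a, hW, hmapτ]
    obtain ⟨κ, hκ⟩ := (IsGalois.mem_range_algebraMap_iff_fixed μ).2 hfix
    have h1 : κ / w = 0 := by
      refine no_pole (L := L) (D := D) hx hfrac hDM hDx hF hirr hn hDF hy (κ / w) ?_
      intro v e hbd
      have hsum : φ (κ / w) * y = ∑ a ∈ T, a ^ k * D a / (y * W.eval a) := by
        have h3 : φ (κ / w) = μ / y ^ 2 := by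
          rw [map_div₀, ← hy]
          congr 1
        rw [h3, hμ, Finset.sum_div, Finset.sum_mul]
        refine Finset.sum_congr rfl fun a _ => ?_
        by_cases hWa : W.eval a = 0
        · rw [hWa]
          simp
        · field_simp
      rw [hsum]
      refine v.map_sum_le fun a ha => ?_
      by_cases hWa : W.eval a = 0
      · rw [hWa, mul_zero, div_zero, map_zero]
        exact zero_le
      · obtain ⟨ϖ, hϖ⟩ := hbd.unif
        have hnat : ∀ n : ℕ, n ≠ 0 → v (n : L) = 1 := by
          intro n hn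
          have h1 := hbd.unit (n : M) (by exact_mod_cast hn)
          rwa [map_natCast] at h1
        have hcoef : ∀ (p : M[X]) (i : ℕ), v ((p.map (algebraMap M L)).coeff i) ≤ 1 := by
          intro p i
          rw [coeff_map]
          by_cases h0 : p.coeff i = 0
          · rw [h0, map_zero, map_zero]; exact zero_le
          · exact (hbd.unit _ h0).le
        exact est D v hnat hbd.bd hϖ (hF.map _) (hcoef F) hdcF (hcoef A₀) (hcoef B₀) hAB
          (hb a ha) (mul_ne_zero hy0 hWa) (by rw [natDegree_map]; exact hk)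
    have h2 : κ = 0 := by
      rcases div_eq_zero_iff.1 h1 with h | h
      · exact h
      · exact absurd h hw0
    rw [← hκ, h2, map_zero]
  have hcard : T.card ≤ U.natDegree := by
    refine (Multiset.toFinset_card_le _).trans ((card_roots' _).trans ?_)
    rw [hUL, natDegree_map]
  have hz := vander (fun a => D a / W.eval a) (T := T) fun k hk => hμ k (by omega)
  have hDa : ∀ a ∈ T, D a = 0 := by
    intro a ha
    rcases div_eq_zero_iff.1 (hz a ha) with h | h
    · exact h
    · have h1 := hb a ha
      rw [h, mul_zero] at h1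
      have h2 := eval_dc D a FL
      have h3 : FL.eval a = 0 := by rw [← h1]; ring
      rw [hdcF, h3, map_zero, eval_zero, zero_add] at h2
      have h4 : FL.derivative.eval a ≠ 0 := by
        intro h0
        have h5 := congrArg (eval a) hAB
        rw [eval_add, eval_mul, eval_mul, h3, h0, eval_one, mul_zero, mul_zero, add_zero] at h5
        exact zero_ne_one h5
      exact (mul_eq_zero.1 h2.symm).resolve_left h4
  have hdcU : dc D UL = 0 := by
    rw [hs.eq_prod_roots_of_monic hULm]
    refine dc_prod D _ fun a ha => hDa a ?_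
    rw [hT, Multiset.mem_toFinset]
    exact ha
  rw [hUL, dc_map hD] at hdcU
  exact (Polynomial.map_eq_zero_iff φ.injective).1 hdcU

include hx hfrac hDM₀ hDx₀ hF hirr hn hDF₀ hU hdvd hsmall in
/-- **Rigidity**: the first coordinates of an odd map are constant for the derivation. -/
theorem rigid : dc D₀ U = 0 := by
  classical
  have hczK : CharZero K₀ := charZero_of_injective_algebraMap (algebraMap M K₀).injective
  let P : K₀[X] := U * (X ^ 2 - C (aeval x F))
  have hP0 : P ≠ 0 := mul_ne_zero hU.ne_zero (monic_X_pow_sub_C _ two_ne_zero).ne_zero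
  let L := P.SplittingField
  have hnorm : Normal K₀ L := Normal.of_isSplittingField P
  have hgal : IsGalois K₀ L := ⟨⟩
  let _ : Differential K₀ := ⟨D₀⟩
  let _ : Differential L := Differential.differentialFiniteDimensional K₀ L
  have hda : DifferentialAlgebra K₀ L := Differential.differentialAlgebraFiniteDimensional
  have hsP : (P.map (algebraMap K₀ L)).Splits := IsSplittingField.splits L P
  have hPm0 : P.map (algebraMap K₀ L) ≠ 0 := (Polynomial.map_ne_zero_iff (algebraMap K₀ L).injective).2 hP0
  have hsU : (U.map (algebraMap K₀ L)).Splits :=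
    hsP.of_dvd hPm0 (Polynomial.map_dvd _ (dvd_mul_right _ _))
  have hsQ : ((X ^ 2 - C (aeval x F) : K₀[X]).map (algebraMap K₀ L)).Splits :=
    hsP.of_dvd hPm0 (Polynomial.map_dvd _ (dvd_mul_left _ _))
  obtain ⟨y, hy⟩ := hsQ.exists_eval_eq_zero (by
    rw [degree_map, degree_X_pow_sub_C two_pos]
    norm_num)
  have hy2 : y ^ 2 = algebraMap K₀ L (aeval x F) := by
    rw [Polynomial.map_sub, Polynomial.map_pow, map_X, map_C, eval_sub, eval_pow, eval_X, eval_C,
      sub_eq_zero] at hy
    exact hy
  exact rigid_core hx hfrac hDM₀ hDx₀ hF hirr hn hDF₀ hU hdvd hsmall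
    (Differential.deriv : Derivation ℤ L L) (fun c => DifferentialAlgebra.deriv_algebraMap c) hy2
    hsU

end

end Q45.RG
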